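import Pool.Agent.RL1.Defs

/-!
MP_3f3e0f_an, RL1, module A: the moments `be` and positivity of `ip`.
-/

namespace RL1

open Finset

variable {α : Type*} [DecidableEq α]

theorem be_rel2 (R S : ℕ) : be (R + 1) S = be R S - be R (S + 2) := by
  unfold be
  rw [← intervalIntegral.integral_sub]
  · apply intervalIntegral.integral_congr
    intro t _
    simp only
    ring
  · exact (Continuous.intervalIntegrable (by fun_prop) _ _)
  · exact (Continuous.intervalIntegrable (by fun_prop) _ _)

theorem be_zero (S : ℕ) : be 0 S = 1 / ((S : ℝ) + 1) := by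
  unfold be
  simp only [pow_zero, one_mul]
  rw [integral_pow]
  simp

theorem be_parts (R S : ℕ) : ((S : ℝ) + 1) * be (R + 1) S = 2 * ((R : ℝ) + 1) * be R (S + 2) := by
  have hder : ∀ t ∈ Set.uIcc (0 : ℝ) 1, HasDerivAt (fun t : ℝ => (1 - t ^ 2) ^ (R + 1) * t ^ (S + 1))
      (((S : ℝ) + 1) * ((1 - t ^ 2) ^ (R + 1) * t ^ S) - 2 * ((R : ℝ) + 1) * ((1 - t ^ 2) ^ R * t ^ (S + 2))) t := by
    intro t _
    have h1 : HasDerivAt (fun t : ℝ => (1 - t ^ 2) ^ (R + 1))
        (((R + 1 : ℕ) : ℝ) * (1 - t ^ 2) ^ R * (-(2 * t))) t := by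
      have h0 : HasDerivAt (fun t : ℝ => 1 - t ^ 2) (-(2 * t)) t := by
        have := (hasDerivAt_pow 2 t).const_sub 1
        simpa using this
      exact h0.pow (R + 1)
    have h2 : HasDerivAt (fun t : ℝ => t ^ (S + 1)) (((S + 1 : ℕ) : ℝ) * t ^ S) t := by
      have := hasDerivAt_pow (S + 1) t
      simpa using this
    have h3 := h1.mul h2
    refine h3.congr_deriv ?_
    push_cast
    ring
  have hint := intervalIntegral.integral_eq_sub_of_hasDerivAt hder
    (Continuous.intervalIntegrable (by fun_prop) _ _)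
  rw [intervalIntegral.integral_sub (Continuous.intervalIntegrable (by fun_prop) _ _)
    (Continuous.intervalIntegrable (by fun_prop) _ _)] at hint
  rw [intervalIntegral.integral_const_mul, intervalIntegral.integral_const_mul] at hint
  have h0 : (fun t : ℝ => (1 - t ^ 2) ^ (R + 1) * t ^ (S + 1)) 1 -
      (fun t : ℝ => (1 - t ^ 2) ^ (R + 1) * t ^ (S + 1)) 0 = 0 := by
    simp
  unfold be
  simp only at h0 hint
  linarith [hint, h0]

theorem be_rel1 (R S : ℕ) : (2 * ((R : ℝ) + 1) + 1 + S) * be (R + 1) S = 2 * ((R : ℝ) + 1) * be R S := by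
  have h1 := be_parts R S
  have h2 := be_rel2 R S
  have h3 : be R (S + 2) = be R S - be (R + 1) S := by linarith
  rw [h3] at h1
  linarith

/-- the form at fixed `t` -/
noncomputable def qt (t : ℝ) (W : Finset α) (F : Finset α → ℝ) : ℝ :=
  ∑ A ∈ W.powerset, ∑ B ∈ W.powerset, F A * F B * t ^ (symmDiff A B).card

omit [DecidableEq α] in
theorem symmDiff_insert_insert [DecidableEq α] {a : α} {A B : Finset α} (hA : a ∉ A) (hB : a ∉ B) :
    symmDiff (insert a A) (insert a B) = symmDiff A B := by
  ext x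
  simp only [Finset.mem_symmDiff, Finset.mem_insert]
  constructor
  · rintro (⟨h1 | h1, h2⟩ | ⟨h1 | h1, h2⟩)
    · exact absurd (Or.inl h1) h2
    · exact Or.inl ⟨h1, fun h => h2 (Or.inr h)⟩
    · exact absurd (Or.inl h1) h2
    · exact Or.inr ⟨h1, fun h => h2 (Or.inr h)⟩
  · rintro (⟨h1, h2⟩ | ⟨h1, h2⟩)
    · refine Or.inl ⟨Or.inr h1, ?_⟩
      rintro (h | h)
      · exact hA (h ▸ h1)
      · exact h2 h
    · refine Or.inr ⟨Or.inr h1, ?_⟩
      rintro (h | h)
      · exact hB (h ▸ h1)
      · exact h2 h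

theorem card_symmDiff_insert_left {a : α} {A B : Finset α} (hA : a ∉ A) (hB : a ∉ B) :
    (symmDiff (insert a A) B).card = (symmDiff A B).card + 1 := by
  have h : symmDiff (insert a A) B = insert a (symmDiff A B) := by
    ext x
    simp only [Finset.mem_symmDiff, Finset.mem_insert]
    constructor
    · rintro (⟨h1 | h1, h2⟩ | ⟨h1, h2⟩)
      · exact Or.inl h1
      · exact Or.inr (Or.inl ⟨h1, h2⟩)
      · exact Or.inr (Or.inr ⟨h1, fun h => h2 (Or.inr h)⟩)
    · rintro (h | ⟨h1, h2⟩ | ⟨h1, h2⟩)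
      · subst h
        exact Or.inl ⟨Or.inl rfl, hB⟩
      · exact Or.inl ⟨Or.inr h1, h2⟩
      · refine Or.inr ⟨h1, ?_⟩
        rintro (h | h)
        · exact hB (h ▸ h1)
        · exact h2 h
  rw [h, Finset.card_insert_of_notMem]
  intro h'
  rcases Finset.mem_symmDiff.1 h' with h' | h'
  · exact hA h'.1
  · exact hB h'.1

theorem card_symmDiff_insert_right {a : α} {A B : Finset α} (hA : a ∉ A) (hB : a ∉ B) :
    (symmDiff A (insert a B)).card = (symmDiff A B).card + 1 := by
  rw [symmDiff_comm, card_symmDiff_insert_left hB hA, symmDiff_comm]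

theorem qt_insert (t : ℝ) {a : α} {W : Finset α} (ha : a ∉ W) (F : Finset α → ℝ) :
    qt t (insert a W) F = (1 - t) * (qt t W F + qt t W (fun A => F (insert a A)))
      + t * qt t W (fun A => F A + F (insert a A)) := by
  have hsplit : ∀ f : Finset α → ℝ, ∑ A ∈ (insert a W).powerset, f A =
      ∑ A ∈ W.powerset, f A + ∑ A ∈ W.powerset, f (insert a A) := by
    intro f
    rw [Finset.sum_powerset_insert ha]
  have hn : ∀ A ∈ W.powerset, a ∉ A := fun A hA h => ha (Finset.mem_powerset.1 hA h)
  unfold qt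
  rw [hsplit]
  simp_rw [hsplit]
  rw [mul_add, Finset.mul_sum, Finset.mul_sum, Finset.mul_sum, ← Finset.sum_add_distrib,
    ← Finset.sum_add_distrib, ← Finset.sum_add_distrib]
  apply Finset.sum_congr rfl
  intro A hA
  rw [Finset.mul_sum, Finset.mul_sum, Finset.mul_sum, ← Finset.sum_add_distrib,
    ← Finset.sum_add_distrib, ← Finset.sum_add_distrib, ← Finset.sum_add_distrib, ← Finset.sum_add_distrib]
  apply Finset.sum_congr rfl
  intro B hB
  rw [card_symmDiff_insert_right (hn A hA) (hn B hB), card_symmDiff_insert_left (hn A hA) (hn B hB),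
    symmDiff_insert_insert (hn A hA) (hn B hB), pow_succ]
  ring

theorem qt_nonneg (t : ℝ) (h0 : 0 ≤ t) (h1 : t ≤ 1) (W : Finset α) :
    ∀ F : Finset α → ℝ, 0 ≤ qt t W F := by
  induction W using Finset.induction_on with
  | empty =>
    intro F
    unfold qt
    simp only [Finset.powerset_empty, Finset.sum_singleton]
    simp only [symmDiff_self, Finset.bot_eq_empty, Finset.card_empty, pow_zero, mul_one]
    exact mul_self_nonneg _
  | insert a W ha ih =>
    intro F
    rw [qt_insert t ha F]
    have e1 := ih F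
    have e2 := ih (fun A => F (insert a A))
    have e3 := ih (fun A => F A + F (insert a A))
    have := mul_nonneg (sub_nonneg.2 h1) (add_nonneg e1 e2)
    have := mul_nonneg h0 e3
    linarith

theorem ip_eq_integral (r : ℕ) (W : Finset α) (F : Finset α → ℝ) :
    ip r W F F = ∫ t in (0 : ℝ)..1, (1 - t ^ 2) ^ r * qt t W F := by
  unfold ip qt be
  have : ∀ t : ℝ, (1 - t ^ 2) ^ r * ∑ A ∈ W.powerset, ∑ B ∈ W.powerset, F A * F B * t ^ (symmDiff A B).card =
      ∑ A ∈ W.powerset, ∑ B ∈ W.powerset, F A * F B * ((1 - t ^ 2) ^ r * t ^ (symmDiff A B).card) := by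
    intro t
    rw [Finset.mul_sum]
    apply Finset.sum_congr rfl
    intro A _
    rw [Finset.mul_sum]
    apply Finset.sum_congr rfl
    intro B _
    ring
  simp_rw [this]
  rw [intervalIntegral.integral_finsetSum]
  · apply Finset.sum_congr rfl
    intro A _
    rw [intervalIntegral.integral_finsetSum]
    · apply Finset.sum_congr rfl
      intro B _
      rw [intervalIntegral.integral_const_mul]
    · intro B _
      exact (Continuous.intervalIntegrable (by fun_prop) _ _)
  · intro A _
    exact (Continuous.intervalIntegrable (by fun_prop) _ _)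

theorem ip_self_nonneg (r : ℕ) (W : Finset α) (F : Finset α → ℝ) : 0 ≤ ip r W F F := by
  rw [ip_eq_integral]
  apply intervalIntegral.integral_nonneg (by norm_num)
  intro t ht
  have h0 : 0 ≤ t := ht.1
  have h1 : t ≤ 1 := ht.2
  apply mul_nonneg
  · apply pow_nonneg
    nlinarith
  · exact qt_nonneg t h0 h1 W F

end RL1
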