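import Mathlib

/-!
MP_3f3e0f_an: the one-replica inequality L >= 0 (helper80, board 1299): definitions.
-/

namespace RL1

open Finset

variable {α : Type*} [DecidableEq α]

/-- `be r S = ∫_0^1 (1 - t^2)^r t^S dt` -/
noncomputable def be (r S : ℕ) : ℝ := ∫ t in (0 : ℝ)..1, (1 - t ^ 2) ^ r * t ^ S

/-- inner product of functions on the subsets of `W` -/
noncomputable def ip (r : ℕ) (W : Finset α) (F G : Finset α → ℝ) : ℝ :=
  ∑ A ∈ W.powerset, ∑ B ∈ W.powerset, F A * G B * be r (symmDiff A B).card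

/-- `rho r b = r! b! / (b + r + 1)!` -/
noncomputable def rho (r b : ℕ) : ℝ := (r.factorial * b.factorial : ℝ) / ((b + r + 1).factorial : ℝ)

/-- weight of a set -/
noncomputable def wt (w : α → ℝ) (A : Finset α) : ℝ := ∏ l ∈ A, w l

/-- the general function on the subsets of `W` -/
noncomputable def Phi (w : α → ℝ) (W : Finset α) (f : ℕ → ℕ → ℕ → ℝ) (A : Finset α) : ℝ :=
  ∑ B ∈ W.powerset, f A.card B.card (B \ A).card * (wt w A * wt w B)

/-- the coefficient function of level `r` -/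
noncomputable def fr (γ : ℕ → ℝ) (r : ℕ) : ℕ → ℕ → ℕ → ℝ :=
  fun i j b => if i = j then γ (i + r) * rho r b else 0

/-- the family of level `r` -/
noncomputable def Kf (w : α → ℝ) (γ : ℕ → ℝ) (r : ℕ) (V : Finset α) (a : α) (A : Finset α) : ℝ :=
  w a * Phi w (V.erase a) (fr γ r) A

/-- the quadratic form of level `r` of a family of functions (`K a` is a function on the subsets of `V.erase a`) -/
noncomputable def QF (r : ℕ) (V : Finset α) (K : α → Finset α → ℝ) : ℝ :=
  ((r : ℝ) + 1) ^ 2 * ∑ a ∈ V, ip r (V.erase a) (K a) (K a)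
  + ((r : ℝ) + 1) * ∑ a ∈ V, ∑ b ∈ V.erase a, (ip r ((V.erase a).erase b) (K a) (K b)
      + ip r ((V.erase a).erase b) (fun A => K a (insert b A)) (fun A => K b (insert a A)))
  + 2 * ∑ x ∈ V, ∑ y ∈ V.erase x, ∑ z ∈ (V.erase x).erase y,
      ip (r + 1) (((V.erase x).erase y).erase z) (fun A => K x (insert y A)) (fun A => K y (insert z A))

/-- the pairs (point, set not containing it) -/
def idx (V : Finset α) : Finset (α × Finset α) := (V ×ˢ V.powerset).filter (fun p => p.1 ∉ p.2)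

/-- kernel sums -/
noncomputable def ker (V : Finset α) (K : α → Finset α → ℝ) (κ : α × Finset α → α × Finset α → ℝ) : ℝ :=
  ∑ p ∈ idx V, ∑ q ∈ idx V, K p.1 p.2 * K q.1 q.2 * κ p q

/-- the kernel of level 0, not symmetrised -/
noncomputable def kap (r : ℕ) (p q : α × Finset α) : ℝ :=
  ((r : ℝ) + 1) ^ 2 * (if p.1 = q.1 then be r (symmDiff p.2 q.2).card else 0)
  + ((r : ℝ) + 1) * ((if p.1 ≠ q.1 ∧ p.1 ∉ q.2 ∧ q.1 ∉ p.2 then be r (symmDiff p.2 q.2).card else 0)
      + (if p.1 ∈ q.2 ∧ q.1 ∈ p.2 then be r ((symmDiff p.2 q.2).card - 2) else 0))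
  + 2 * (if q.1 ∈ p.2 ∧ p.1 ∉ q.2 then ((q.2 \ p.2).card : ℝ) * be (r + 1) ((symmDiff p.2 q.2).card - 2) else 0)

end RL1
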