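import Pool.Agent.RL1.Beta
import Pool.Agent.RL1.Defs

/-!
MP_3f3e0f_an: the symmetrised kernel of level 0.
-/

namespace RL1

open Finset

variable {α : Type*} [DecidableEq α]

/-- the fraction `|X \ Y| / |X sd Y|` -/
noncomputable def Fx (X Y : Finset α) : ℝ :=
  ((X \ Y).card : ℝ) / (((X \ Y).card : ℝ) + ((Y \ X).card : ℝ))

theorem card_sd (A B : Finset α) : (symmDiff A B).card = (A \ B).card + (B \ A).card := by
  rw [symmDiff_def, sup_eq_union, card_union_of_disjoint disjoint_sdiff_sdiff]

theorem Fx_out {a : α} {A B : Finset α} (hA : a ∉ A) (hB : a ∉ B) :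
    Fx (insert a A) B = (((A \ B).card : ℝ) + 1) / (((symmDiff A B).card : ℝ) + 1) := by
  have h1 : (insert a A \ B).card = (A \ B).card + 1 := by
    rw [insert_sdiff_of_notMem _ hB, card_insert_of_notMem (fun h => hA (mem_sdiff.1 h).1)]
  have h2 : (B \ insert a A).card = (B \ A).card := by
    rw [sdiff_insert, erase_eq_of_notMem (fun h => hB (mem_sdiff.1 h).1)]
  rw [Fx, h1, h2, card_sd]
  push_cast
  congr 1
  ring

theorem Fx_in {a : α} {A B : Finset α} (hA : a ∉ A) (hB : a ∈ B) :
    Fx (insert a A) B = ((A \ B).card : ℝ) / (((symmDiff A B).card : ℝ) - 1) := by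
  have h1 : insert a A \ B = A \ B := insert_sdiff_of_mem _ hB
  have h2 : (B \ insert a A).card + 1 = (B \ A).card := by
    rw [sdiff_insert]
    exact card_erase_add_one (mem_sdiff.2 ⟨hB, hA⟩)
  have h3 : ((B \ A).card : ℝ) = ((B \ insert a A).card : ℝ) + 1 := by rw [← h2]; push_cast; ring
  rw [Fx, h1, card_sd]
  push_cast
  rw [h3]
  congr 1
  ring

theorem be_zero' (S : ℕ) : be 0 S = 1 / ((S : ℝ) + 1) := be_zero S

theorem be_one (S : ℕ) : be 1 S = 1 / ((S : ℝ) + 1) - 1 / ((S : ℝ) + 3) := by
  have h := be_rel2 0 S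
  rw [zero_add] at h
  rw [h, be_zero, be_zero]
  push_cast
  congr 2
  ring

/-- **pointwise identity of the coupling** -/
theorem kap_sym {a b : α} {A B : Finset α} (ha : a ∉ A) (hb : b ∉ B) (hp : A.card % 2 = B.card % 2) :
    kap 0 (a, A) (b, B) + kap 0 (b, B) (a, A) = 2 * (Fx (insert a A) B + Fx (insert b B) A - 1) := by
  have hS := card_sd A B
  have hAc := card_sdiff_add_card_inter A B
  have hBc := card_sdiff_add_card_inter B A
  rw [inter_comm] at hBc
  have hev : (symmDiff A B).card % 2 = 0 := by omega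
  have hR : ((symmDiff A B).card : ℝ) = ((A \ B).card : ℝ) + ((B \ A).card : ℝ) := by rw [hS]; push_cast; ring
  by_cases haB : a ∈ B
  · have hab : a ≠ b := fun e => hb (e ▸ haB)
    have hmem : a ∈ B \ A := mem_sdiff.2 ⟨haB, ha⟩
    have hpos := card_pos.2 ⟨a, hmem⟩
    obtain ⟨s, hs⟩ : ∃ s, (symmDiff A B).card = s + 2 := ⟨(symmDiff A B).card - 2, by omega⟩
    have hs' : (symmDiff B A).card = s + 2 := by rw [symmDiff_comm]; exact hs
    have hsR : ((A \ B).card : ℝ) + ((B \ A).card : ℝ) = (s : ℝ) + 2 := by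
      rw [← hR, hs]; push_cast; ring
    have e1 : ((s : ℝ) + 1) ≠ 0 := by positivity
    have e3 : ((s : ℝ) + 3) ≠ 0 := by positivity
    by_cases hbA : b ∈ A
    · rw [Fx_in ha haB, Fx_in hb hbA]
      simp only [kap, zero_add, haB, hbA, ha, hb, hab, hab.symm, hs, hs', Nat.add_sub_cancel, be_zero', be_one, if_true, if_false,
        and_self, not_true_eq_false, not_false_eq_true, and_false, false_and, and_true, ne_eq]
      push_cast
      rw [show ((s : ℝ) + 2 - 1) = (s : ℝ) + 1 by ring]
      field_simp
      linear_combination (-2 : ℝ) * hsR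
    · rw [Fx_in ha haB, Fx_out hb hbA]
      simp only [kap, zero_add, haB, hbA, ha, hb, hab, hab.symm, hs, hs', Nat.add_sub_cancel, be_zero', be_one, if_true, if_false,
        and_self, not_true_eq_false, not_false_eq_true, and_false, false_and, and_true, ne_eq]
      push_cast
      rw [show ((s : ℝ) + 2 - 1) = (s : ℝ) + 1 by ring, show ((s : ℝ) + 2 + 1) = (s : ℝ) + 3 by ring]
      field_simp
      have h9 : ((B \ A).card : ℝ) = (s : ℝ) + 2 - ((A \ B).card : ℝ) := by linarith
      rw [h9]
      ring
  · by_cases hbA : b ∈ A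
    · have hab : a ≠ b := fun e => ha (e ▸ hbA)
      have hmem : b ∈ A \ B := mem_sdiff.2 ⟨hbA, hb⟩
      have hpos := card_pos.2 ⟨b, hmem⟩
      obtain ⟨s, hs⟩ : ∃ s, (symmDiff A B).card = s + 2 := ⟨(symmDiff A B).card - 2, by omega⟩
      have hs' : (symmDiff B A).card = s + 2 := by rw [symmDiff_comm]; exact hs
      have hsR : ((A \ B).card : ℝ) + ((B \ A).card : ℝ) = (s : ℝ) + 2 := by
        rw [← hR, hs]; push_cast; ring
      have e1 : ((s : ℝ) + 1) ≠ 0 := by positivity
      have e3 : ((s : ℝ) + 3) ≠ 0 := by positivity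
      rw [Fx_out ha haB, Fx_in hb hbA]
      simp only [kap, zero_add, haB, hbA, ha, hb, hab, hab.symm, hs, hs', Nat.add_sub_cancel, be_zero', be_one, if_true, if_false,
        and_self, not_true_eq_false, not_false_eq_true, and_false, false_and, and_true, ne_eq]
      push_cast
      rw [show ((s : ℝ) + 2 - 1) = (s : ℝ) + 1 by ring, show ((s : ℝ) + 2 + 1) = (s : ℝ) + 3 by ring]
      field_simp
      have h9 : ((B \ A).card : ℝ) = (s : ℝ) + 2 - ((A \ B).card : ℝ) := by linarith
      rw [h9]
      ring
    · have e1 : (((symmDiff A B).card : ℝ) + 1) ≠ 0 := by positivity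
      have hc : (symmDiff B A).card = (symmDiff A B).card := by rw [symmDiff_comm]
      rw [Fx_out ha haB, Fx_out hb hbA]
      by_cases hab : a = b
      · subst hab
        simp only [kap, zero_add, haB, hbA, hc, be_zero', be_one, if_true, if_false,
          and_self, not_true_eq_false, not_false_eq_true, and_false, false_and, and_true, ne_eq]
        push_cast
        field_simp
        linear_combination (2 : ℝ) * hR
      · simp only [kap, zero_add, haB, hbA, hab, Ne.symm hab, hc, be_zero', be_one, if_true, if_false,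
          and_self, not_true_eq_false, not_false_eq_true, and_false, false_and, and_true, ne_eq]
        push_cast
        field_simp
        linear_combination (2 : ℝ) * hR

end RL1
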