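import Pool.Agent.RL1.Defs

/-!
MP_3f3e0f_an: kernel form of the quadratic form `QF` (module C, helper28).
-/

namespace RL1

open Finset

variable {α : Type*} [DecidableEq α]

/-- sum over the subsets not containing `y` -/
theorem sum_pow_erase0 (W : Finset α) (y : α) (F : Finset α → ℝ) :
    ∑ A ∈ (W.erase y).powerset, F A = ∑ A ∈ W.powerset, if y ∉ A then F A else 0 := by
  rw [← sum_filter]
  apply sum_congr _ (fun _ _ => rfl)
  ext A
  simp only [mem_powerset, mem_filter]
  constructor
  · intro h
    exact ⟨h.trans (erase_subset _ _), fun hy => (mem_erase.mp (h hy)).1 rfl⟩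
  · rintro ⟨h, hy⟩ x hx
    exact mem_erase.mpr ⟨fun e => hy (e ▸ hx), h hx⟩

/-- sum over the subsets containing `y` -/
theorem sum_pow_erase1 (W : Finset α) (y : α) (hy : y ∈ W) (F : Finset α → ℝ) :
    ∑ A ∈ (W.erase y).powerset, F A = ∑ A ∈ W.powerset, if y ∈ A then F (A.erase y) else 0 := by
  rw [← sum_filter]
  refine sum_bij' (fun A _ => insert y A) (fun A _ => A.erase y) ?_ ?_ ?_ ?_ ?_
  · intro A hA
    rw [mem_powerset] at hA
    rw [mem_filter, mem_powerset]
    refine ⟨?_, mem_insert_self _ _⟩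
    exact insert_subset hy (hA.trans (erase_subset _ _))
  · intro A hA
    rw [mem_filter, mem_powerset] at hA
    rw [mem_powerset]
    exact erase_subset_erase _ hA.1
  · intro A hA
    rw [mem_powerset] at hA
    exact erase_insert (fun h => (mem_erase.mp (hA h)).1 rfl)
  · intro A hA
    rw [mem_filter] at hA
    exact insert_erase hA.2
  · intro A hA
    rw [mem_powerset] at hA
    rw [erase_insert (fun h => (mem_erase.mp (hA h)).1 rfl)]

theorem sum_erase_ite (V : Finset α) (x : α) (F : α → ℝ) :
    ∑ y ∈ V.erase x, F y = ∑ y ∈ V, if y ≠ x then F y else 0 := by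
  rw [← sum_filter]
  apply sum_congr _ (fun _ _ => rfl)
  ext y
  simp only [mem_erase, mem_filter]
  tauto

/-- `ker` as a sum over points and all subsets of `V` -/
theorem ker_eq (V : Finset α) (K : α → Finset α → ℝ) (κ : α × Finset α → α × Finset α → ℝ) :
    ker V K κ = ∑ a ∈ V, ∑ b ∈ V, ∑ A ∈ V.powerset, ∑ B ∈ V.powerset,
      if a ∉ A ∧ b ∉ B then K a A * K b B * κ (a, A) (b, B) else 0 := by
  have h1 : ∀ G : α × Finset α → ℝ, ∑ p ∈ idx V, G p = ∑ a ∈ V, ∑ A ∈ V.powerset, if a ∉ A then G (a, A) else 0 := by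
    intro G
    rw [idx, sum_filter, sum_product]
  rw [ker, h1]
  apply sum_congr rfl
  intro a _
  rw [sum_comm]
  apply sum_congr rfl
  intro A _
  by_cases hA : a ∉ A
  · rw [if_pos hA, h1]
    apply sum_congr rfl
    intro b _
    apply sum_congr rfl
    intro B _
    by_cases hB : b ∉ B
    · rw [if_pos hB, if_pos ⟨hA, hB⟩]
    · rw [if_neg hB, if_neg (fun h => hB h.2)]
  · rw [if_neg hA]
    symm
    apply sum_eq_zero
    intro b _
    apply sum_eq_zero
    intro B _
    rw [if_neg (fun h => hA h.1)]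

theorem ker_add (V : Finset α) (K : α → Finset α → ℝ) (κ₁ κ₂ : α × Finset α → α × Finset α → ℝ) :
    ker V K (fun p q => κ₁ p q + κ₂ p q) = ker V K κ₁ + ker V K κ₂ := by
  simp only [ker, mul_add, sum_add_distrib]

theorem ker_smul (V : Finset α) (K : α → Finset α → ℝ) (c : ℝ) (κ : α × Finset α → α × Finset α → ℝ) :
    ker V K (fun p q => c * κ p q) = c * ker V K κ := by
  simp only [ker, mul_sum]
  apply sum_congr rfl
  intro p _
  apply sum_congr rfl
  intro q _
  ring

/-- term 1 -/
theorem QF_t1 (r : ℕ) (V : Finset α) (K : α → Finset α → ℝ) :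
    ∑ a ∈ V, ip r (V.erase a) (K a) (K a)
      = ker V K (fun p q => if p.1 = q.1 then be r (symmDiff p.2 q.2).card else 0) := by
  rw [ker_eq]
  apply sum_congr rfl
  intro a ha
  rw [Finset.sum_eq_single a]
  · rw [ip, sum_pow_erase0]
    apply sum_congr rfl
    intro A _
    by_cases hA : a ∉ A
    · rw [if_pos hA, sum_pow_erase0]
      apply sum_congr rfl
      intro B _
      by_cases hB : a ∉ B
      · rw [if_pos hB, if_pos ⟨hA, hB⟩]
        simp
      · rw [if_neg hB, if_neg (fun h => hB h.2)]
    · rw [if_neg hA]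
      symm
      apply sum_eq_zero
      intro B _
      rw [if_neg (fun h => hA h.1)]
  · intro b _ hb
    apply sum_eq_zero
    intro A _
    apply sum_eq_zero
    intro B _
    split_ifs with h1 h2
    · exact absurd h2.symm hb
    · ring
    · rfl
  · intro h
    exact absurd ha h

/-- term 2 -/
theorem QF_t2 (r : ℕ) (V : Finset α) (K : α → Finset α → ℝ) :
    ∑ a ∈ V, ∑ b ∈ V.erase a, ip r ((V.erase a).erase b) (K a) (K b)
      = ker V K (fun p q => if p.1 ≠ q.1 ∧ p.1 ∉ q.2 ∧ q.1 ∉ p.2 then be r (symmDiff p.2 q.2).card else 0) := by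
  rw [ker_eq]
  apply sum_congr rfl
  intro a ha
  rw [sum_erase_ite]
  apply sum_congr rfl
  intro b hb
  by_cases hab : b ≠ a
  · rw [if_pos hab, ip, sum_pow_erase0, sum_pow_erase0]
    apply sum_congr rfl
    intro A _
    by_cases hA : a ∉ A
    · rw [if_pos hA]
      by_cases hA' : b ∉ A
      · rw [if_pos hA', sum_pow_erase0, sum_pow_erase0]
        apply sum_congr rfl
        intro B _
        by_cases hB : a ∉ B
        · rw [if_pos hB]
          by_cases hB' : b ∉ B
          · rw [if_pos hB', if_pos ⟨hA, hB'⟩, if_pos ⟨fun h => hab h.symm, hB, hA'⟩]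
          · rw [if_neg hB', if_neg (fun h => hB' h.2)]
        · rw [if_neg hB]
          split_ifs with h1 h2
          · exact absurd h2.2.1 hB
          · ring
          · rfl
      · rw [if_neg hA']
        symm
        apply sum_eq_zero
        intro B _
        split_ifs with h1 h2
        · exact absurd h2.2.2 hA'
        · ring
        · rfl
    · rw [if_neg hA]
      symm
      apply sum_eq_zero
      intro B _
      rw [if_neg (fun h => hA h.1)]
  · rw [if_neg hab]
    symm
    apply sum_eq_zero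
    intro A _
    apply sum_eq_zero
    intro B _
    split_ifs with h1 h2
    · exact absurd (fun h => h2.1 h.symm) hab
    · ring
    · rfl

/-- removing `b` from `A` and `a` from `B` -/
theorem symmDiff_erase_card {A B : Finset α} {a b : α} (ha : a ∉ A) (hb : b ∉ B) (hbA : b ∈ A) (haB : a ∈ B) :
    (symmDiff (A.erase b) (B.erase a)).card = (symmDiff A B).card - 2 := by
  have hab : a ≠ b := fun h => ha (h ▸ hbA)
  have e : symmDiff (A.erase b) (B.erase a) = ((symmDiff A B).erase b).erase a := by
    ext x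
    simp only [mem_symmDiff, mem_erase]
    by_cases hxa : x = a
    · subst hxa
      simp [ha]
    · by_cases hxb : x = b
      · subst hxb
        simp [hb]
      · simp [hxa, hxb]
  rw [e, card_erase_of_mem, card_erase_of_mem]
  · omega
  · rw [mem_symmDiff]; exact Or.inl ⟨hbA, hb⟩
  · rw [mem_erase, mem_symmDiff]; exact ⟨hab, Or.inr ⟨haB, ha⟩⟩

/-- term 3 -/
theorem QF_t3 (r : ℕ) (V : Finset α) (K : α → Finset α → ℝ) :
    ∑ a ∈ V, ∑ b ∈ V.erase a, ip r ((V.erase a).erase b) (fun A => K a (insert b A)) (fun A => K b (insert a A))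
      = ker V K (fun p q => if p.1 ∈ q.2 ∧ q.1 ∈ p.2 then be r ((symmDiff p.2 q.2).card - 2) else 0) := by
  rw [ker_eq]
  apply sum_congr rfl
  intro a ha
  rw [sum_erase_ite]
  apply sum_congr rfl
  intro b hb
  by_cases hab : b ≠ a
  · have hbW : b ∈ V.erase a := mem_erase.mpr ⟨hab, hb⟩
    have haW : a ∈ V.erase b := mem_erase.mpr ⟨fun h => hab h.symm, ha⟩
    rw [if_pos hab, ip, sum_pow_erase1 _ _ hbW, sum_pow_erase0]
    apply sum_congr rfl
    intro A _
    by_cases hA : a ∉ A
    · rw [if_pos hA]
      by_cases hA' : b ∈ A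
      · rw [if_pos hA', erase_right_comm, sum_pow_erase1 _ _ haW, sum_pow_erase0]
        apply sum_congr rfl
        intro B _
        by_cases hB : b ∉ B
        · rw [if_pos hB]
          by_cases hB' : a ∈ B
          · rw [if_pos hB', if_pos ⟨hA, hB⟩, if_pos ⟨hB', hA'⟩, insert_erase hA', insert_erase hB',
              symmDiff_erase_card hA hB hA' hB']
          · rw [if_neg hB', if_pos ⟨hA, hB⟩, if_neg (fun h => hB' h.1)]
            ring
        · rw [if_neg hB, if_neg (fun h => hB h.2)]
      · rw [if_neg hA']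
        symm
        apply sum_eq_zero
        intro B _
        split_ifs with h1 h2
        · exact absurd h2.2 hA'
        · ring
        · rfl
    · rw [if_neg hA]
      symm
      apply sum_eq_zero
      intro B _
      rw [if_neg (fun h => hA h.1)]
  · rw [if_neg hab]
    push Not at hab
    subst hab
    symm
    apply sum_eq_zero
    intro A _
    apply sum_eq_zero
    intro B _
    split_ifs with h1 h2
    · exact absurd h2.2 h1.1
    · ring
    · rfl

/-- term 4 -/
theorem QF_t4 (r : ℕ) (V : Finset α) (K : α → Finset α → ℝ) :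
    ∑ x ∈ V, ∑ y ∈ V.erase x, ∑ z ∈ (V.erase x).erase y,
      ip r (((V.erase x).erase y).erase z) (fun A => K x (insert y A)) (fun A => K y (insert z A))
      = ker V K (fun p q => if q.1 ∈ p.2 ∧ p.1 ∉ q.2 then
          ((q.2 \ p.2).card : ℝ) * be r ((symmDiff p.2 q.2).card - 2) else 0) := by
  rw [ker_eq]
  apply sum_congr rfl
  intro x hx
  rw [sum_erase_ite]
  apply sum_congr rfl
  intro y hy
  have hR : ∀ A ∈ V.powerset, ∀ B ∈ V.powerset,
      (if x ∉ A ∧ y ∉ B then K x A * K y B * (if y ∈ A ∧ x ∉ B then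
          ((B \ A).card : ℝ) * be r ((symmDiff A B).card - 2) else 0) else 0)
      = ∑ z ∈ V, if (x ∉ A ∧ y ∉ B) ∧ (y ∈ A ∧ x ∉ B) ∧ (z ∈ B ∧ z ∉ A) then
          K x A * K y B * be r ((symmDiff A B).card - 2) else 0 := by
    intro A hA B hB
    rw [← sum_filter]
    by_cases h1 : x ∉ A ∧ y ∉ B
    · rw [if_pos h1]
      by_cases h2 : y ∈ A ∧ x ∉ B
      · rw [if_pos h2, sum_const, nsmul_eq_mul]
        have : V.filter (fun z => (x ∉ A ∧ y ∉ B) ∧ (y ∈ A ∧ x ∉ B) ∧ (z ∈ B ∧ z ∉ A)) = B \ A := by
          ext z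
          rw [mem_filter, mem_sdiff]
          constructor
          · rintro ⟨_, _, _, h⟩
            exact h
          · rintro h
            exact ⟨mem_powerset.mp hB h.1, h1, h2, h⟩
        rw [this]
        ring
      · rw [if_neg h2, mul_zero]
        symm
        apply sum_eq_zero
        intro z hz
        exact absurd (mem_filter.mp hz).2.2.1 h2
    · rw [if_neg h1]
      symm
      apply sum_eq_zero
      intro z hz
      exact absurd (mem_filter.mp hz).2.1 h1
  rw [sum_congr rfl (fun A hA => sum_congr rfl (fun B hB => hR A hA B hB))]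
  rw [sum_congr rfl (fun A _ => sum_comm), sum_comm]
  by_cases hyx : y ≠ x
  · rw [if_pos hyx, sum_erase_ite, sum_erase_ite]
    apply sum_congr rfl
    intro z hz
    by_cases hzx : z ≠ x
    · rw [if_pos hzx]
      by_cases hzy : z ≠ y
      · rw [if_pos hzy, ip]
        have hyW : y ∈ (V.erase x).erase z := mem_erase.mpr ⟨fun h => hzy h.symm, mem_erase.mpr ⟨hyx, hy⟩⟩
        have hzW : z ∈ (V.erase x).erase y := mem_erase.mpr ⟨hzy, mem_erase.mpr ⟨hzx, hz⟩⟩
        have e1 : ((V.erase x).erase y).erase z = ((V.erase x).erase z).erase y := erase_right_comm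
        have h3 : ∀ F : Finset α → ℝ, ∑ A ∈ (((V.erase x).erase y).erase z).powerset, F A
            = ∑ A ∈ V.powerset, if x ∉ A ∧ z ∉ A ∧ y ∈ A then F (A.erase y) else 0 := by
          intro F
          rw [e1, sum_pow_erase1 _ _ hyW, sum_pow_erase0, sum_pow_erase0]
          apply sum_congr rfl
          intro A _
          split_ifs <;> first | rfl | (exfalso; tauto)
        have h4 : ∀ F : Finset α → ℝ, ∑ A ∈ (((V.erase x).erase y).erase z).powerset, F A
            = ∑ A ∈ V.powerset, if x ∉ A ∧ y ∉ A ∧ z ∈ A then F (A.erase z) else 0 := by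
          intro F
          rw [sum_pow_erase1 _ _ hzW, sum_pow_erase0, sum_pow_erase0]
          apply sum_congr rfl
          intro A _
          split_ifs <;> first | rfl | (exfalso; tauto)
        rw [h3]
        apply sum_congr rfl
        intro A _
        by_cases hA : x ∉ A ∧ z ∉ A ∧ y ∈ A
        · rw [if_pos hA, h4]
          apply sum_congr rfl
          intro B _
          by_cases hB : x ∉ B ∧ y ∉ B ∧ z ∈ B
          · rw [if_pos hB, if_pos ⟨⟨hA.1, hB.2.1⟩, ⟨hA.2.2, hB.1⟩, hB.2.2, hA.2.1⟩, insert_erase hA.2.2,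
              insert_erase hB.2.2, symmDiff_erase_card hA.2.1 hB.2.1 hA.2.2 hB.2.2]
          · rw [if_neg hB, if_neg]
            rintro ⟨h1, h2, h3⟩
            exact hB ⟨h2.2, h1.2, h3.1⟩
        · rw [if_neg hA]
          symm
          apply sum_eq_zero
          intro B _
          rw [if_neg]
          rintro ⟨h1, h2, h3⟩
          exact hA ⟨h1.1, h3.2, h2.1⟩
      · rw [if_neg hzy]
        push Not at hzy
        subst hzy
        symm
        apply sum_eq_zero
        intro A _
        apply sum_eq_zero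
        intro B _
        rw [if_neg]
        rintro ⟨h1, h2, h3⟩
        exact h1.2 h3.1
    · rw [if_neg hzx]
      push Not at hzx
      subst hzx
      symm
      apply sum_eq_zero
      intro A _
      apply sum_eq_zero
      intro B _
      rw [if_neg]
      rintro ⟨h1, h2, h3⟩
      exact h2.2 h3.1
  · rw [if_neg hyx]
    push Not at hyx
    subst hyx
    symm
    apply sum_eq_zero
    intro z _
    apply sum_eq_zero
    intro A _
    apply sum_eq_zero
    intro B _
    rw [if_neg]
    rintro ⟨h1, h2, h3⟩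
    exact h1.1 h2.1

/-- kernel form of `QF`, any family, any level -/
theorem QF_eq_ker (r : ℕ) (V : Finset α) (K : α → Finset α → ℝ) : QF r V K = ker V K (kap r) := by
  rw [QF]
  simp only [sum_add_distrib]
  rw [QF_t1, QF_t2, QF_t3, QF_t4]
  have e : kap (α := α) r = fun p q => (((r : ℝ) + 1) ^ 2 * (if p.1 = q.1 then be r (symmDiff p.2 q.2).card else 0)
  + ((r : ℝ) + 1) * ((if p.1 ≠ q.1 ∧ p.1 ∉ q.2 ∧ q.1 ∉ p.2 then be r (symmDiff p.2 q.2).card else 0)
      + (if p.1 ∈ q.2 ∧ q.1 ∈ p.2 then be r ((symmDiff p.2 q.2).card - 2) else 0)))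
  + 2 * (if q.1 ∈ p.2 ∧ p.1 ∉ q.2 then ((q.2 \ p.2).card : ℝ) * be (r + 1) ((symmDiff p.2 q.2).card - 2) else 0) := by
    funext p q
    rfl
  rw [e, ker_add V K, ker_add V K, ker_smul V K, ker_smul V K, ker_smul V K, ker_add V K]

end RL1
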