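import Pool.Agent.RL1.LemC

/-!
MP_3f3e0f_an: module S of RL1 (the miracle identity `lemS`), from `RL1.lemC`.
-/

namespace RL1

open Finset

variable {α : Type*} [DecidableEq α]

theorem ip_congr89 {r : ℕ} {W : Finset α} {F F' H H' : Finset α → ℝ}
    (hF : ∀ A ⊆ W, F A = F' A) (hH : ∀ A ⊆ W, H A = H' A) : ip r W F H = ip r W F' H' := by
  unfold ip
  refine Finset.sum_congr rfl fun A hA => Finset.sum_congr rfl fun B hB => ?_
  rw [hF A (mem_powerset.1 hA), hH B (mem_powerset.1 hB)]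

theorem ip_comm89 (r : ℕ) (W : Finset α) (F H : Finset α → ℝ) : ip r W F H = ip r W H F := by
  unfold ip
  rw [Finset.sum_comm]
  refine Finset.sum_congr rfl fun A _ => Finset.sum_congr rfl fun B _ => ?_
  rw [symmDiff_comm]
  ring

theorem ip_add_left89 (r : ℕ) (W : Finset α) (F G H : Finset α → ℝ) :
    ip r W (fun A => F A + G A) H = ip r W F H + ip r W G H := by
  unfold ip
  simp only [← Finset.sum_add_distrib]
  refine Finset.sum_congr rfl fun A _ => Finset.sum_congr rfl fun B _ => ?_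
  ring

theorem ip_add_right89 (r : ℕ) (W : Finset α) (F G H : Finset α → ℝ) :
    ip r W F (fun A => G A + H A) = ip r W F G + ip r W F H := by
  rw [ip_comm89, ip_add_left89, ip_comm89 r W G F, ip_comm89 r W H F]

theorem ip_smul_left89 (r : ℕ) (W : Finset α) (c : ℝ) (F H : Finset α → ℝ) :
    ip r W (fun A => c * F A) H = c * ip r W F H := by
  unfold ip
  simp only [Finset.mul_sum]
  refine Finset.sum_congr rfl fun A _ => Finset.sum_congr rfl fun B _ => ?_
  ring

theorem ip_smul_right89 (r : ℕ) (W : Finset α) (c : ℝ) (F H : Finset α → ℝ) :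
    ip r W F (fun A => c * H A) = c * ip r W F H := by
  rw [ip_comm89, ip_smul_left89, ip_comm89 r W H F]

theorem lemS (r : ℕ) (V : Finset α) (K : α → Finset α → ℝ) (P Q : Finset α → ℝ)
    (hP : ∀ A ⊆ V, ((r : ℝ) + 1) * P A = ∑ z ∈ V \ A, K z A)
    (hQ : ∀ A ⊆ V, ((r : ℝ) + 1) * Q A = ∑ z ∈ A, K z (A.erase z)) :
    ((r : ℝ) + 1) ^ 2 * ((∑ z ∈ V, (ip (r + 1) (V.erase z) (fun A => K z A + Q (insert z A) + P A)
        (fun A => K z A + Q (insert z A) + P A) - ip (r + 1) (V.erase z) (fun A => Q (insert z A)) (fun A => Q (insert z A))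
        - ip (r + 1) (V.erase z) P P)) - ((r : ℝ) + 1) * (ip r V Q Q + ip r V P P)) = QF (r + 1) V K := by
  rw [← lemC V K r]
  have hr : (r : ℝ) + 1 ≠ 0 := by positivity
  have hP' : ∀ A ⊆ V, RL1C.Pt K V A = ((r : ℝ) + 1) * P A := fun A hA => (hP A hA).symm
  have hQ' : ∀ A ⊆ V, RL1C.Vt K A = ((r : ℝ) + 1) * Q A := fun A hA => (hQ A hA).symm
  have e1 : ip r V (RL1C.Pt K V) (RL1C.Pt K V) = ((r : ℝ) + 1) ^ 2 * ip r V P P := by
    rw [ip_congr89 (F' := fun A => ((r : ℝ) + 1) * P A) (H' := fun A => ((r : ℝ) + 1) * P A) hP' hP',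
      ip_smul_left89, ip_smul_right89]
    ring
  have e2 : ip r V (RL1C.Vt K) (RL1C.Vt K) = ((r : ℝ) + 1) ^ 2 * ip r V Q Q := by
    rw [ip_congr89 (F' := fun A => ((r : ℝ) + 1) * Q A) (H' := fun A => ((r : ℝ) + 1) * Q A) hQ' hQ',
      ip_smul_left89, ip_smul_right89]
    ring
  have e3 : ∀ z ∈ V, (((r : ℝ) + 1) ^ 2 * ip (r + 1) (V.erase z) (K z) (K z)
        + 2 * ip (r + 1) (V.erase z) (RL1C.Pt K V) (fun A => RL1C.Vt K (insert z A))
        + 2 * ((r : ℝ) + 1) * (ip (r + 1) (V.erase z) (K z) (RL1C.Pt K V)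
            + ip (r + 1) (V.erase z) (K z) (fun A => RL1C.Vt K (insert z A))))
      = ((r : ℝ) + 1) ^ 2 * (ip (r + 1) (V.erase z) (fun A => K z A + Q (insert z A) + P A)
        (fun A => K z A + Q (insert z A) + P A)
        - ip (r + 1) (V.erase z) (fun A => Q (insert z A)) (fun A => Q (insert z A))
        - ip (r + 1) (V.erase z) P P) := by
    intro z hz
    have s1 : ∀ A ⊆ V.erase z, RL1C.Pt K V A = ((r : ℝ) + 1) * P A :=
      fun A hA => hP' A (hA.trans (erase_subset _ _))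
    have s2 : ∀ A ⊆ V.erase z, RL1C.Vt K (insert z A) = ((r : ℝ) + 1) * Q (insert z A) :=
      fun A hA => hQ' _ (insert_subset hz (hA.trans (erase_subset _ _)))
    rw [ip_congr89 (F := RL1C.Pt K V) (F' := fun A => ((r : ℝ) + 1) * P A)
        (H' := fun A => ((r : ℝ) + 1) * Q (insert z A)) s1 s2,
      ip_congr89 (F := K z) (F' := K z) (H := RL1C.Pt K V)
        (H' := fun A => ((r : ℝ) + 1) * P A) (fun _ _ => rfl) s1,
      ip_congr89 (F := K z) (F' := K z) (H' := fun A => ((r : ℝ) + 1) * Q (insert z A))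
        (fun _ _ => rfl) s2]
    simp only [ip_smul_left89, ip_smul_right89, ip_add_left89, ip_add_right89]
    rw [ip_comm89 (r + 1) (V.erase z) (fun A => Q (insert z A)) (K z),
      ip_comm89 (r + 1) (V.erase z) P (K z),
      ip_comm89 (r + 1) (V.erase z) (fun A => Q (insert z A)) P]
    ring
  rw [Finset.sum_congr rfl e3, e1, e2, ← Finset.mul_sum]
  ring

end RL1
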