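import Pool.Agent.RL1.Phi
import Pool.Agent.RL1.Beta
import Pool.Agent.RL1.LemS

/-!
MP_3f3e0f_an: the recursion and the nonnegativity of the forms of all levels.
-/

namespace RL1

open Finset

variable {α : Type*} [DecidableEq α]

/-! ### sums over ordered pairs and triples of distinct elements -/

theorem sum_pair_swap (V : Finset α) (f : α → α → ℝ) :
    ∑ x ∈ V, ∑ y ∈ V.erase x, f x y = ∑ x ∈ V, ∑ y ∈ V.erase x, f y x := by
  rw [sum_comm' (t' := V) (s' := fun y => V.erase y)]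
  intro x y
  simp only [mem_erase]
  tauto

/-- sum over ordered triples of distinct elements -/
noncomputable def S3 (V : Finset α) (f : α → α → α → ℝ) : ℝ :=
  ∑ x ∈ V, ∑ y ∈ V.erase x, ∑ z ∈ (V.erase x).erase y, f x y z

theorem S3_swap12 (V : Finset α) (f : α → α → α → ℝ) : S3 V f = S3 V (fun x y z => f y x z) := by
  unfold S3
  rw [sum_pair_swap V (fun x y => ∑ z ∈ (V.erase x).erase y, f x y z)]
  refine sum_congr rfl fun x _ => sum_congr rfl fun y _ => ?_
  rw [erase_right_comm]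

theorem S3_swap23 (V : Finset α) (f : α → α → α → ℝ) : S3 V f = S3 V (fun x y z => f x z y) := by
  unfold S3
  refine sum_congr rfl fun x _ => ?_
  exact sum_pair_swap (V.erase x) (fun y z => f x y z)

theorem S3_add (V : Finset α) (f g : α → α → α → ℝ) :
    S3 V (fun x y z => f x y z + g x y z) = S3 V f + S3 V g := by
  unfold S3
  simp only [sum_add_distrib]

/-- symmetrisation -/
def sy (f : α → α → α → ℝ) (x y z : α) : ℝ :=
  f x y z + f x z y + f y x z + f y z x + f z x y + f z y x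

theorem S3_sy (V : Finset α) (f : α → α → α → ℝ) : S3 V (sy f) = 6 * S3 V f := by
  have e1 : S3 V (fun x y z => f x z y) = S3 V f := (S3_swap23 V f).symm
  have e2 : S3 V (fun x y z => f y x z) = S3 V f := (S3_swap12 V f).symm
  have e3 : S3 V (fun x y z => f y z x) = S3 V f := by
    rw [S3_swap12 V (fun x y z => f y z x)]
    exact e1
  have e4 : S3 V (fun x y z => f z x y) = S3 V f := by
    rw [S3_swap23 V (fun x y z => f z x y)]
    exact e2
  have e5 : S3 V (fun x y z => f z y x) = S3 V f := by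
    rw [S3_swap12 V (fun x y z => f z y x)]
    exact e4
  have : S3 V (sy f) = S3 V f + S3 V (fun x y z => f x z y) + S3 V (fun x y z => f y x z)
      + S3 V (fun x y z => f y z x) + S3 V (fun x y z => f z x y) + S3 V (fun x y z => f z y x) := by
    unfold sy
    simp only [← S3_add]
  rw [this, e1, e2, e3, e4, e5]
  ring

theorem S3_le (V : Finset α) (f g : α → α → α → ℝ)
    (h : ∀ x ∈ V, ∀ y ∈ V, ∀ z ∈ V, x ≠ y → x ≠ z → y ≠ z → sy g x y z ≤ sy f x y z) :
    S3 V g ≤ S3 V f := by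
  have h1 : S3 V (sy g) ≤ S3 V (sy f) := by
    unfold S3
    refine sum_le_sum fun x hx => sum_le_sum fun y hy => sum_le_sum fun z hz => ?_
    simp only [mem_erase] at hy hz
    exact h x hx y hy.2 z hz.2.2 (fun e => hy.1 e.symm) (fun e => hz.2.1 e.symm) (fun e => hz.1 e.symm)
  rw [S3_sy, S3_sy] at h1
  linarith

/-! ### pairs -/

theorem ip_lin2 (r : ℕ) (W : Finset α) (F G : Finset α → ℝ) (a b c d : ℝ) :
    ip r W (fun A => a * F A + b * G A) (fun A => c * F A + d * G A)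
      = a * c * ip r W F F + (a * d + b * c) * ip r W F G + b * d * ip r W G G := by
  rw [ip_add_left89, ip_add_right89, ip_add_right89]
  simp only [ip_smul_left89, ip_smul_right89]
  rw [ip_comm89 r W G F]
  ring

theorem erase_eq_insert2 {V : Finset α} {a b : α} (hb : b ∈ V) (hab : a ≠ b) :
    V.erase a = insert b ((V.erase a).erase b) :=
  (insert_erase (mem_erase.2 ⟨fun e => hab e.symm, hb⟩)).symm

theorem pair_ge1 (w : α → ℝ) (hw : ∀ a, 0 < w a) (γ : ℕ → ℝ) (r : ℕ) (V : Finset α) {a b : α}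
    (ha : a ∈ V) (hb : b ∈ V) (hab : a ≠ b) :
    -(1 / 2 * (w a * w b * (w a - w b) ^ 2) * ip r ((V.erase a).erase b)
        (Phi w ((V.erase a).erase b) (fB (fr γ r))) (Phi w ((V.erase a).erase b) (fB (fr γ r))))
      ≤ ip r ((V.erase a).erase b) (Kf w γ r V a) (Kf w γ r V b) := by
  set W := (V.erase a).erase b with hW
  have hW' : W = (V.erase b).erase a := by rw [hW, erase_right_comm]
  have haW : a ∉ W := by rw [hW']; exact notMem_erase _ _
  have hbW : b ∉ W := by rw [hW]; exact notMem_erase _ _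
  have e1 : ∀ A ⊆ W, Kf w γ r V a A = w a * Phi w W (fr γ r) A + w a * w b * Phi w W (fB (fr γ r)) A := by
    intro A hA
    rw [Kf, erase_eq_insert2 hb hab, ← hW, Phi_insert w _ hbW (fun h => hbW (hA h))]
    ring
  have e2 : ∀ A ⊆ W, Kf w γ r V b A = w b * Phi w W (fr γ r) A + w b * w a * Phi w W (fB (fr γ r)) A := by
    intro A hA
    rw [Kf, erase_eq_insert2 ha hab.symm, ← hW', Phi_insert w _ haW (fun h => haW (hA h))]
    ring
  rw [ip_congr89 e1 e2, ip_lin2]
  have n1 := ip_self_nonneg r W (fun A => 1 * Phi w W (fr γ r) A + w b * Phi w W (fB (fr γ r)) A)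
  have n2 := ip_self_nonneg r W (fun A => 1 * Phi w W (fr γ r) A + w a * Phi w W (fB (fr γ r)) A)
  rw [ip_lin2] at n1 n2
  have hp : 0 < w a * w b := mul_pos (hw a) (hw b)
  have m1 := mul_nonneg hp.le n1
  have m2 := mul_nonneg hp.le n2
  nlinarith [m1, m2]

theorem pair_ge2 (w : α → ℝ) (hw : ∀ a, 0 < w a) (γ : ℕ → ℝ) (r : ℕ) (V : Finset α) {a b : α}
    (ha : a ∈ V) (hb : b ∈ V) (hab : a ≠ b) :
    -(1 / 2 * (w a * w b * (w a - w b) ^ 2) * ip r ((V.erase a).erase b)
        (Phi w ((V.erase a).erase b) (fA (fr γ r))) (Phi w ((V.erase a).erase b) (fA (fr γ r))))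
      ≤ ip r ((V.erase a).erase b) (fun A => Kf w γ r V a (insert b A)) (fun A => Kf w γ r V b (insert a A)) := by
  set W := (V.erase a).erase b with hW
  have hW' : W = (V.erase b).erase a := by rw [hW, erase_right_comm]
  have haW : a ∉ W := by rw [hW']; exact notMem_erase _ _
  have hbW : b ∉ W := by rw [hW]; exact notMem_erase _ _
  have e1 : ∀ A ⊆ W, Kf w γ r V a (insert b A)
      = w a * w b * Phi w W (fA (fr γ r)) A + w a * w b * w b * Phi w W (fAB (fr γ r)) A := by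
    intro A hA
    rw [Kf, erase_eq_insert2 hb hab, ← hW, Phi_insert_mem w _ hbW (fun h => hbW (hA h))]
    ring
  have e2 : ∀ A ⊆ W, Kf w γ r V b (insert a A)
      = w b * w a * Phi w W (fA (fr γ r)) A + w b * w a * w a * Phi w W (fAB (fr γ r)) A := by
    intro A hA
    rw [Kf, erase_eq_insert2 ha hab.symm, ← hW', Phi_insert_mem w _ haW (fun h => haW (hA h))]
    ring
  rw [ip_congr89 (F := fun A => Kf w γ r V a (insert b A)) (H := fun A => Kf w γ r V b (insert a A)) e1 e2, ip_lin2]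
  have n1 := ip_self_nonneg r W (fun A => w a * Phi w W (fA (fr γ r)) A + w a * w b * Phi w W (fAB (fr γ r)) A)
  have n2 := ip_self_nonneg r W (fun A => w b * Phi w W (fA (fr γ r)) A + w b * w a * Phi w W (fAB (fr γ r)) A)
  rw [ip_lin2] at n1 n2
  have hp : 0 < w a * w b := mul_pos (hw a) (hw b)
  have m1 := mul_nonneg hp.le n1
  have m2 := mul_nonneg hp.le n2
  nlinarith [m1, m2]

/-! ### triples -/

/-- the function `g + s h1 + t h2 + s t k` -/
noncomputable def Gv (w : α → ℝ) (γ : ℕ → ℝ) (r : ℕ) (W : Finset α) (s t : ℝ) (A : Finset α) : ℝ :=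
  Phi w W (fA (fr γ r)) A + s * Phi w W (fAB (fr γ r)) A + t * Phi w W (fB (fA (fr γ r))) A
    + s * t * Phi w W (fB (fAB (fr γ r))) A

theorem ip_lin4 (r : ℕ) (W : Finset α) (F G H K : Finset α → ℝ) (a1 a2 a3 a4 b1 b2 b3 b4 : ℝ) :
    ip r W (fun A => a1 * F A + a2 * G A + a3 * H A + a4 * K A) (fun A => b1 * F A + b2 * G A + b3 * H A + b4 * K A)
      = a1 * b1 * ip r W F F + (a1 * b2 + a2 * b1) * ip r W F G + (a1 * b3 + a3 * b1) * ip r W F H
        + (a1 * b4 + a4 * b1) * ip r W F K + a2 * b2 * ip r W G G + (a2 * b3 + a3 * b2) * ip r W G H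
        + (a2 * b4 + a4 * b2) * ip r W G K + a3 * b3 * ip r W H H + (a3 * b4 + a4 * b3) * ip r W H K
        + a4 * b4 * ip r W K K := by
  simp only [ip_add_left89, ip_add_right89, ip_smul_left89, ip_smul_right89]
  rw [ip_comm89 r W G F, ip_comm89 r W H F, ip_comm89 r W K F, ip_comm89 r W H G, ip_comm89 r W K G,
    ip_comm89 r W K H]
  ring

theorem Kf_insert (w : α → ℝ) (γ : ℕ → ℝ) (r : ℕ) (V W : Finset α) {x y z : α}
    (hy : y ∈ V) (hz : z ∈ V) (hxy : x ≠ y) (hxz : x ≠ z) (hyz : y ≠ z)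
    (hW : W = ((V.erase x).erase y).erase z) {A : Finset α} (hA : A ⊆ W) :
    Kf w γ r V x (insert y A) = w x * w y * Gv w γ r W (w y) (w z) A := by
  have hyV : y ∈ V.erase x := mem_erase.2 ⟨fun e => hxy e.symm, hy⟩
  have hzV : z ∈ (V.erase x).erase y := mem_erase.2 ⟨fun e => hyz e.symm, mem_erase.2 ⟨fun e => hxz e.symm, hz⟩⟩
  have hzW : z ∉ W := by rw [hW]; exact notMem_erase _ _
  have hyW : y ∉ (V.erase x).erase y := notMem_erase _ _
  have hWs : W ⊆ (V.erase x).erase y := by rw [hW]; exact erase_subset _ _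
  have e1 : V.erase x = insert y ((V.erase x).erase y) := (insert_erase hyV).symm
  have e2 : (V.erase x).erase y = insert z W := by rw [hW]; exact (insert_erase hzV).symm
  rw [Kf, e1, Phi_insert_mem w _ hyW (fun h => hyW (hWs (hA h))), e2, Phi_insert w _ hzW (fun h => hzW (hA h)),
    Phi_insert w _ hzW (fun h => hzW (hA h)), Gv]
  ring

theorem t_eq (w : α → ℝ) (γ : ℕ → ℝ) (r : ℕ) (V W : Finset α) {x y z : α}
    (hx : x ∈ V) (hy : y ∈ V) (hz : z ∈ V) (hxy : x ≠ y) (hxz : x ≠ z) (hyz : y ≠ z)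
    (hW : W = ((V.erase x).erase y).erase z) :
    ip (r + 1) (((V.erase x).erase y).erase z) (fun A => Kf w γ r V x (insert y A)) (fun A => Kf w γ r V y (insert z A))
      = w x * w y ^ 2 * w z * ip (r + 1) W (Gv w γ r W (w y) (w z)) (Gv w γ r W (w z) (w x)) := by
  have hW2 : W = ((V.erase y).erase z).erase x := by
    rw [hW, erase_right_comm (a := x) (b := y), erase_right_comm (a := x) (b := z)]
  rw [← hW, ip_congr89 (F' := fun A => (w x * w y) * Gv w γ r W (w y) (w z) A)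
    (H' := fun A => (w y * w z) * Gv w γ r W (w z) (w x) A)
    (fun A hA => Kf_insert w γ r V W hy hz hxy hxz hyz hW hA)
    (fun A hA => Kf_insert w γ r V W hz hx hyz hxy.symm hxz.symm hW2 hA), ip_smul_left89, ip_smul_right89]
  ring

/-- the bracket for the pair `x, y` and the third point `z` -/
noncomputable def Dt (w : α → ℝ) (γ : ℕ → ℝ) (r : ℕ) (U : Finset α) (z : α) : ℝ :=
  ip (r + 1) (U.erase z)
      (fun A => Kf w γ (r + 1) U z A + Phi w U (fB (fr γ r)) (insert z A) + Phi w U (fA (fr γ r)) A)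
      (fun A => Kf w γ (r + 1) U z A + Phi w U (fB (fr γ r)) (insert z A) + Phi w U (fA (fr γ r)) A)
    - ip (r + 1) (U.erase z) (fun A => Phi w U (fB (fr γ r)) (insert z A)) (fun A => Phi w U (fB (fr γ r)) (insert z A))
    - ip (r + 1) (U.erase z) (Phi w U (fA (fr γ r))) (Phi w U (fA (fr γ r)))

theorem Dt_eq (w : α → ℝ) (γ : ℕ → ℝ) (r : ℕ) (U W : Finset α) {z : α} (hz : z ∈ U) (hW : W = U.erase z) :
    Dt w γ r U z = ip (r + 1) W (Gv w γ r W (w z) (w z)) (Gv w γ r W (w z) (w z))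
      - w z ^ 2 * ip (r + 1) W (fun A => 0 * Phi w W (fA (fr γ r)) A + 0 * Phi w W (fAB (fr γ r)) A
          + 1 * Phi w W (fB (fA (fr γ r))) A + w z * Phi w W (fB (fAB (fr γ r))) A)
          (fun A => 0 * Phi w W (fA (fr γ r)) A + 0 * Phi w W (fAB (fr γ r)) A
          + 1 * Phi w W (fB (fA (fr γ r))) A + w z * Phi w W (fB (fAB (fr γ r))) A)
      - ip (r + 1) W (fun A => 1 * Phi w W (fA (fr γ r)) A + 0 * Phi w W (fAB (fr γ r)) A
          + w z * Phi w W (fB (fA (fr γ r))) A + 0 * Phi w W (fB (fAB (fr γ r))) A)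
          (fun A => 1 * Phi w W (fA (fr γ r)) A + 0 * Phi w W (fAB (fr γ r)) A
          + w z * Phi w W (fB (fA (fr γ r))) A + 0 * Phi w W (fB (fAB (fr γ r))) A) := by
  have hzW : z ∉ W := by rw [hW]; exact notMem_erase _ _
  have eU : U = insert z W := by rw [hW]; exact (insert_erase hz).symm
  have hs : ∀ A ⊆ W, z ∉ A := fun A hA h => hzW (hA h)
  have eP : ∀ A ⊆ W, Phi w U (fA (fr γ r)) A
      = 1 * Phi w W (fA (fr γ r)) A + 0 * Phi w W (fAB (fr γ r)) A
          + w z * Phi w W (fB (fA (fr γ r))) A + 0 * Phi w W (fB (fAB (fr γ r))) A := by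
    intro A hA
    rw [eU, Phi_insert w _ hzW (hs A hA)]
    ring
  have eQ : ∀ A ⊆ W, Phi w U (fB (fr γ r)) (insert z A)
      = w z * (0 * Phi w W (fA (fr γ r)) A + 0 * Phi w W (fAB (fr γ r)) A
          + 1 * Phi w W (fB (fA (fr γ r))) A + w z * Phi w W (fB (fAB (fr γ r))) A) := by
    intro A hA
    rw [eU, Phi_insert_mem w _ hzW (hs A hA)]
    have h1 : fA (fB (fr γ r)) = fB (fA (fr γ r)) := rfl
    have h2 : fAB (fB (fr γ r)) = fB (fAB (fr γ r)) := rfl
    rw [h1, h2]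
    ring
  have eK : ∀ A ⊆ W, Kf w γ (r + 1) U z A = w z * (Phi w W (fAB (fr γ r)) A - Phi w W (fB (fA (fr γ r))) A) := by
    intro A _
    rw [Kf, ← hW, Phi_fr_succ]
  have eT : ∀ A ⊆ W, Kf w γ (r + 1) U z A + Phi w U (fB (fr γ r)) (insert z A) + Phi w U (fA (fr γ r)) A
      = Gv w γ r W (w z) (w z) A := by
    intro A hA
    rw [eK A hA, eQ A hA, eP A hA, Gv]
    ring
  unfold Dt
  rw [← hW, ip_congr89 eT eT, ip_congr89 eP eP,
    ip_congr89 (F := fun A => Phi w U (fB (fr γ r)) (insert z A)) (H := fun A => Phi w U (fB (fr γ r)) (insert z A)) eQ eQ,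
    ip_smul_left89, ip_smul_right89]
  ring

theorem Gv_eq (w : α → ℝ) (γ : ℕ → ℝ) (r : ℕ) (W : Finset α) (s t : ℝ) :
    Gv w γ r W s t = fun A => 1 * Phi w W (fA (fr γ r)) A + s * Phi w W (fAB (fr γ r)) A
      + t * Phi w W (fB (fA (fr γ r))) A + (s * t) * Phi w W (fB (fAB (fr γ r))) A := by
  funext A
  rw [Gv]
  ring

theorem trip (w : α → ℝ) (hw : ∀ a, 0 < w a) (γ : ℕ → ℝ) (r : ℕ) (V : Finset α) {x y z : α}
    (hx : x ∈ V) (hy : y ∈ V) (hz : z ∈ V) (hxy : x ≠ y) (hxz : x ≠ z) (hyz : y ≠ z) :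
    sy (fun x y z => 1 / 2 * (w x * w y * (w x - w y) ^ 2) * Dt w γ r ((V.erase x).erase y) z) x y z
      ≤ sy (fun x y z => 2 * ip (r + 1) (((V.erase x).erase y).erase z) (fun A => Kf w γ r V x (insert y A))
          (fun A => Kf w γ r V y (insert z A))) x y z := by
  obtain ⟨W, hW⟩ : ∃ W, W = ((V.erase x).erase y).erase z := ⟨_, rfl⟩
  have h1 : W = ((V.erase x).erase z).erase y := by rw [hW, erase_right_comm (a := y)]
  have h2 : W = ((V.erase y).erase x).erase z := by rw [hW, erase_right_comm (a := x) (b := y)]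
  have h3 : W = ((V.erase y).erase z).erase x := by rw [h2, erase_right_comm (a := x)]
  have h4 : W = ((V.erase z).erase x).erase y := by rw [h1, erase_right_comm (a := x) (b := z)]
  have h5 : W = ((V.erase z).erase y).erase x := by rw [h4, erase_right_comm (a := x)]
  have m : ∀ {a b c : α}, c ∈ V → a ≠ c → b ≠ c → c ∈ (V.erase a).erase b := fun {a b c} h1 h2 h3 =>
    mem_erase.2 ⟨fun e => h3 e.symm, mem_erase.2 ⟨fun e => h2 e.symm, h1⟩⟩
  simp only [sy]
  rw [t_eq w γ r V W hx hy hz hxy hxz hyz hW, t_eq w γ r V W hx hz hy hxz hxy hyz.symm h1,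
    t_eq w γ r V W hy hx hz hxy.symm hyz hxz h2, t_eq w γ r V W hy hz hx hyz hxy.symm hxz.symm h3,
    t_eq w γ r V W hz hx hy hxz.symm hyz.symm hxy h4, t_eq w γ r V W hz hy hx hyz.symm hxz.symm hxy.symm h5,
    Dt_eq w γ r _ W (m hz hxz hyz) hW, Dt_eq w γ r _ W (m hy hxy hyz.symm) h1, Dt_eq w γ r _ W (m hz hyz hxz) h2,
    Dt_eq w γ r _ W (m hx hxy.symm hxz.symm) h3, Dt_eq w γ r _ W (m hy hyz.symm hxy) h4,
    Dt_eq w γ r _ W (m hx hxz.symm hxy.symm) h5]
  simp only [Gv_eq, ip_lin4]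
  have n : ∀ s t : ℝ, 0 ≤ ip (r + 1) W (fun A => 2 * Phi w W (fA (fr γ r)) A + (s + t) * Phi w W (fAB (fr γ r)) A
      + (s + t) * Phi w W (fB (fA (fr γ r))) A + (2 * s * t) * Phi w W (fB (fAB (fr γ r))) A)
      (fun A => 2 * Phi w W (fA (fr γ r)) A + (s + t) * Phi w W (fAB (fr γ r)) A
      + (s + t) * Phi w W (fB (fA (fr γ r))) A + (2 * s * t) * Phi w W (fB (fAB (fr γ r))) A) :=
    fun s t => ip_self_nonneg _ _ _
  have n1 := mul_nonneg (mul_nonneg (sq_nonneg (w y)) (mul_pos (hw x) (hw z)).le) (n (w x) (w z))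
  have n2 := mul_nonneg (mul_nonneg (sq_nonneg (w x)) (mul_pos (hw y) (hw z)).le) (n (w y) (w z))
  have n3 := mul_nonneg (mul_nonneg (sq_nonneg (w z)) (mul_pos (hw x) (hw y)).le) (n (w x) (w y))
  rw [ip_lin4] at n1 n2 n3
  linear_combination n1 + n2 + n3

/-! ### the recursion -/

theorem QF_nonneg (w : α → ℝ) (hw : ∀ a, 0 < w a) (γ : ℕ → ℝ) (r : ℕ) (V : Finset α) :
    0 ≤ QF r V (Kf w γ r V) := by
  induction hn : V.card using Nat.strong_induction_on generalizing V r with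
  | _ n ih =>
  have hr : (0 : ℝ) < (r : ℝ) + 1 := by positivity
  -- the triple sum
  have hT : S3 V (fun x y z => 1 / 2 * (w x * w y * (w x - w y) ^ 2) * Dt w γ r ((V.erase x).erase y) z)
      ≤ 2 * ∑ x ∈ V, ∑ y ∈ V.erase x, ∑ z ∈ (V.erase x).erase y,
        ip (r + 1) (((V.erase x).erase y).erase z) (fun A => Kf w γ r V x (insert y A)) (fun A => Kf w γ r V y (insert z A)) := by
    have h := S3_le V (fun x y z => 2 * ip (r + 1) (((V.erase x).erase y).erase z) (fun A => Kf w γ r V x (insert y A))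
          (fun A => Kf w γ r V y (insert z A)))
      (fun x y z => 1 / 2 * (w x * w y * (w x - w y) ^ 2) * Dt w γ r ((V.erase x).erase y) z)
      (fun x hx y hy z hz h1 h2 h3 => trip w hw γ r V hx hy hz h1 h2 h3)
    refine h.trans (le_of_eq ?_)
    unfold S3
    simp only [mul_sum]
  -- the pair sum
  have hP : ∀ x ∈ V, ∀ y ∈ V.erase x, -(1 / 2 * (w x * w y * (w x - w y) ^ 2) * (ip r ((V.erase x).erase y)
        (Phi w ((V.erase x).erase y) (fB (fr γ r))) (Phi w ((V.erase x).erase y) (fB (fr γ r)))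
        + ip r ((V.erase x).erase y)
        (Phi w ((V.erase x).erase y) (fA (fr γ r))) (Phi w ((V.erase x).erase y) (fA (fr γ r)))))
      ≤ ip r ((V.erase x).erase y) (Kf w γ r V x) (Kf w γ r V y)
        + ip r ((V.erase x).erase y) (fun A => Kf w γ r V x (insert y A)) (fun A => Kf w γ r V y (insert x A)) := by
    intro x hx y hy
    obtain ⟨h1, h2⟩ := mem_erase.1 hy
    have p1 := pair_ge1 w hw γ r V hx h2 (fun e => h1 e.symm)
    have p2 := pair_ge2 w hw γ r V hx h2 (fun e => h1 e.symm)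
    linarith
  have hP2 := sum_le_sum fun x hx => sum_le_sum (hP x hx)
  have hP3 := mul_le_mul_of_nonneg_left hP2 hr.le
  have h0 : 0 ≤ ((r : ℝ) + 1) ^ 2 * ∑ a ∈ V, ip r (V.erase a) (Kf w γ r V a) (Kf w γ r V a) :=
    mul_nonneg (sq_nonneg _) (sum_nonneg fun a _ => ip_self_nonneg _ _ _)
  -- the combination
  have hC : ((r : ℝ) + 1) * (∑ x ∈ V, ∑ y ∈ V.erase x, -(1 / 2 * (w x * w y * (w x - w y) ^ 2) * (ip r ((V.erase x).erase y)
        (Phi w ((V.erase x).erase y) (fB (fr γ r))) (Phi w ((V.erase x).erase y) (fB (fr γ r)))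
        + ip r ((V.erase x).erase y)
        (Phi w ((V.erase x).erase y) (fA (fr γ r))) (Phi w ((V.erase x).erase y) (fA (fr γ r))))))
      + S3 V (fun x y z => 1 / 2 * (w x * w y * (w x - w y) ^ 2) * Dt w γ r ((V.erase x).erase y) z)
      = ∑ x ∈ V, ∑ y ∈ V.erase x, 1 / 2 * (w x * w y * (w x - w y) ^ 2) / ((r : ℝ) + 1) ^ 2
        * QF (r + 1) ((V.erase x).erase y) (Kf w γ (r + 1) ((V.erase x).erase y)) := by
    rw [S3, mul_sum, ← sum_add_distrib]
    refine sum_congr rfl fun x _ => ?_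
    rw [mul_sum, ← sum_add_distrib]
    refine sum_congr rfl fun y _ => ?_
    have hS := lemS r ((V.erase x).erase y) (Kf w γ (r + 1) ((V.erase x).erase y))
      (Phi w ((V.erase x).erase y) (fA (fr γ r))) (Phi w ((V.erase x).erase y) (fB (fr γ r)))
      (fun A _ => P_eq w γ r _ A) (fun A _ => Q_eq w γ r _ A)
    rw [← hS, ← mul_sum]
    simp only [Dt]
    field_simp
    ring
  have hQ : 0 ≤ ∑ x ∈ V, ∑ y ∈ V.erase x, 1 / 2 * (w x * w y * (w x - w y) ^ 2) / ((r : ℝ) + 1) ^ 2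
        * QF (r + 1) ((V.erase x).erase y) (Kf w γ (r + 1) ((V.erase x).erase y)) := by
    refine sum_nonneg fun x hx => sum_nonneg fun y hy => ?_
    refine mul_nonneg ?_ (ih _ ?_ (r + 1) _ rfl)
    · have := hw x
      have := hw y
      positivity
    · rw [← hn]
      exact (card_le_card (erase_subset _ _)).trans_lt (card_erase_lt_of_mem hx)
  unfold QF
  linarith

end RL1
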