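import Pool.Agent.RL1.Marg
import Pool.Agent.RL1.KapSym
import Pool.Agent.RL1.Kernel
import Pool.Agent.RL1.Rec

/-!
MP_3f3e0f_an: the coupling; the one-replica inequality.
-/

namespace RL1

open Finset

variable {α : Type*} [DecidableEq α]

/-- `h_{p+1} h_q E[a/(a+b)]`, `(A, B) ~ (p + 1, q)`, `a = |A \ B|`, `b = |B \ A|` -/
noncomputable def Eab (w : α → ℝ) (V : Finset α) (p q : ℕ) : ℝ :=
  ∑ A ∈ V.powersetCard (p + 1), ∑ B ∈ V.powersetCard q,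
    wt w A * wt w B * (((A \ B).card : ℝ) / (((A \ B).card : ℝ) + ((B \ A).card : ℝ)))

theorem Kf_zero_of (w : α → ℝ) (γ : ℕ → ℝ) (V : Finset α) (a : α) (A : Finset α) (h : γ A.card = 0) :
    Kf w γ 0 V a A = 0 := by
  rw [Kf, Phi]
  refine mul_eq_zero_of_right _ (sum_eq_zero fun B _ => ?_)
  rw [fr]
  simp [h]

theorem ker_flip (V : Finset α) (K : α → Finset α → ℝ) (κ : α × Finset α → α × Finset α → ℝ) :
    2 * ker V K κ = ∑ p ∈ idx V, ∑ q ∈ idx V, K p.1 p.2 * K q.1 q.2 * (κ p q + κ q p) := by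
  have h1 : ker V K κ = ∑ p ∈ idx V, ∑ q ∈ idx V, K p.1 p.2 * K q.1 q.2 * κ q p := by
    rw [ker, sum_comm]
    refine sum_congr rfl fun p _ => sum_congr rfl fun q _ => ?_
    ring
  simp only [mul_add, sum_add_distrib]
  rw [← h1, ker]
  ring

theorem T1_eq (w : α → ℝ) (γ : ℕ → ℝ) (V : Finset α) :
    ∑ p ∈ idx V, ∑ q ∈ idx V, Kf w γ 0 V p.1 p.2 * Kf w γ 0 V q.1 q.2 * Fx (insert p.1 p.2) q.2
      = ∑ p ∈ range (V.card + 1), ∑ q ∈ range (V.card + 1), γ p * γ q * (esy w V p * esy w V (q + 1) * Eab w V p q) := by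
  have h1 : ∀ p ∈ idx V, ∑ q ∈ idx V, Kf w γ 0 V p.1 p.2 * Kf w γ 0 V q.1 q.2 * Fx (insert p.1 p.2) q.2
      = Kf w γ 0 V p.1 p.2 * (fun X => ∑ q ∈ range (V.card + 1), γ q * esy w V (q + 1)
        * ∑ B ∈ V.powersetCard q, wt w B * Fx X B) (insert p.1 p.2) := by
    intro p _
    simp only
    rw [← idx_out w γ V (fun B => Fx (insert p.1 p.2) B), mul_sum]
    refine sum_congr rfl fun q _ => ?_
    ring
  rw [sum_congr rfl h1, idx_in w γ V (fun X => ∑ q ∈ range (V.card + 1), γ q * esy w V (q + 1)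
        * ∑ B ∈ V.powersetCard q, wt w B * Fx X B)]
  refine sum_congr rfl fun p _ => ?_
  simp only [Eab, mul_sum]
  rw [sum_comm]
  refine sum_congr rfl fun q _ => sum_congr rfl fun A _ => sum_congr rfl fun B _ => ?_
  rw [Fx]
  ring

theorem T3_eq (w : α → ℝ) (γ : ℕ → ℝ) (V : Finset α) :
    ∑ p ∈ idx V, Kf w γ 0 V p.1 p.2 = ∑ p ∈ range (V.card + 1), γ p * (esy w V p * esy w V (p + 1)) := by
  have h := idx_out w γ V (fun _ => 1)
  simp only [mul_one] at h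
  rw [h]
  refine sum_congr rfl fun p _ => ?_
  rw [← esy]
  ring

/-- `h_p h_{p+1} h_q h_{q+1} L(p,q) = h_p h_{q+1} Eab(p,q) + h_q h_{p+1} Eab(q,p) - h_p h_{p+1} h_q h_{q+1}` -/
theorem form_eq (w : α → ℝ) (γ : ℕ → ℝ) (V : Finset α) (π : ℕ) (hγ : ∀ p, γ p ≠ 0 → p % 2 = π) :
    QF 0 V (Kf w γ 0 V) = ∑ p ∈ range (V.card + 1), ∑ q ∈ range (V.card + 1), γ p * γ q *
      (esy w V p * esy w V (q + 1) * Eab w V p q + esy w V q * esy w V (p + 1) * Eab w V q p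
        - esy w V p * esy w V (p + 1) * esy w V q * esy w V (q + 1)) := by
  have h1 : ∀ p ∈ idx V, ∀ q ∈ idx V, Kf w γ 0 V p.1 p.2 * Kf w γ 0 V q.1 q.2 * (kap 0 p q + kap 0 q p)
      = 2 * (Kf w γ 0 V p.1 p.2 * Kf w γ 0 V q.1 q.2 * Fx (insert p.1 p.2) q.2
        + Kf w γ 0 V q.1 q.2 * Kf w γ 0 V p.1 p.2 * Fx (insert q.1 q.2) p.2
        - Kf w γ 0 V p.1 p.2 * Kf w γ 0 V q.1 q.2) := by
    rintro ⟨a, A⟩ hp ⟨b, B⟩ hq
    simp only
    by_cases hA : γ A.card = 0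
    · rw [Kf_zero_of w γ V a A hA]; ring
    by_cases hB : γ B.card = 0
    · rw [Kf_zero_of w γ V b B hB]; ring
    rw [kap_sym (mem_filter.1 hp).2 (mem_filter.1 hq).2 ((hγ _ hA).trans (hγ _ hB).symm)]
    ring
  have h2 : 2 * QF 0 V (Kf w γ 0 V) = 2 * ((∑ p ∈ idx V, ∑ q ∈ idx V, Kf w γ 0 V p.1 p.2 * Kf w γ 0 V q.1 q.2 * Fx (insert p.1 p.2) q.2)
        + (∑ p ∈ idx V, ∑ q ∈ idx V, Kf w γ 0 V q.1 q.2 * Kf w γ 0 V p.1 p.2 * Fx (insert q.1 q.2) p.2)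
        - (∑ p ∈ idx V, Kf w γ 0 V p.1 p.2) * (∑ p ∈ idx V, Kf w γ 0 V p.1 p.2)) := by
    rw [QF_eq_ker, ker_flip, sum_congr rfl fun p hp => sum_congr rfl fun q hq => h1 p hp q hq, sum_mul_sum]
    simp only [← mul_sum, sum_add_distrib, sum_sub_distrib]
  have h3 := mul_left_cancel₀ (two_ne_zero) h2
  have h4 : (∑ p ∈ idx V, ∑ q ∈ idx V, Kf w γ 0 V q.1 q.2 * Kf w γ 0 V p.1 p.2 * Fx (insert q.1 q.2) p.2)
      = ∑ p ∈ range (V.card + 1), ∑ q ∈ range (V.card + 1), γ p * γ q * (esy w V q * esy w V (p + 1) * Eab w V q p) := by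
    rw [sum_comm, T1_eq, sum_comm]
    refine sum_congr rfl fun p _ => sum_congr rfl fun q _ => ?_
    ring
  rw [h3, T1_eq, h4, T3_eq, sum_mul_sum]
  simp only [← sum_add_distrib, ← sum_sub_distrib]
  refine sum_congr rfl fun p _ => sum_congr rfl fun q _ => ?_
  ring

/-- **the one-replica inequality** -/
theorem oneReplica (w : α → ℝ) (hw : ∀ a, 0 < w a) (γ : ℕ → ℝ) (V : Finset α) (π : ℕ) (hγ : ∀ p, γ p ≠ 0 → p % 2 = π) :
    0 ≤ ∑ p ∈ range (V.card + 1), ∑ q ∈ range (V.card + 1), γ p * γ q *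
      (esy w V p * esy w V (q + 1) * Eab w V p q + esy w V q * esy w V (p + 1) * Eab w V q p
        - esy w V p * esy w V (p + 1) * esy w V q * esy w V (q + 1)) :=
  (form_eq w γ V π hγ) ▸ QF_nonneg w hw γ 0 V

end RL1
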