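import Mathlib
import Pool.Agent.RL1.Defs

/-!
# Lemma C of RF_L1_PROOF (the miracle identity), for an arbitrary family

`K z A` is a family indexed by pointed sets (`z ∈ G`, `A ⊆ G.erase z`).
`β r S` stands for `∫₀¹ (1-t²)^r t^S dt`; only the two relations
`β (r+1) S = β r S - β r (S+2)` and `(2r+3+S) β (r+1) S = 2(r+1) β r S` are used.
-/

set_option linter.unusedSectionVars false
set_option linter.unusedSimpArgs false

open Finset

namespace RL1C

variable {ι : Type*} [DecidableEq ι]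

/-- pointed subsets of `G`: pairs `(a, A)` with `a ∈ G`, `A ⊆ G`, `a ∉ A`. -/
def D (G : Finset ι) : Finset (ι × Finset ι) :=
  (G ×ˢ G.powerset).filter (fun p => p.1 ∉ p.2)

/-- the quadratic form `Σ F(A) H(B) b(|A △ B|)` -/
def ip (b : ℕ → ℝ) (G : Finset ι) (F H : Finset ι → ℝ) : ℝ :=
  ∑ A ∈ G.powerset, ∑ B ∈ G.powerset, F A * H B * b (symmDiff A B).card

/-- `Σ_z K_z` -/
def Pt (K : ι → Finset ι → ℝ) (G : Finset ι) (A : Finset ι) : ℝ :=
  ∑ z ∈ G \ A, K z A

/-- `Σ_z ε_z K_z` -/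
def Vt (K : ι → Finset ι → ℝ) (A : Finset ι) : ℝ :=
  ∑ z ∈ A, K z (A.erase z)

theorem mem_D {G : Finset ι} {p : ι × Finset ι} :
    p ∈ D G ↔ p.1 ∈ G ∧ p.2 ⊆ G ∧ p.1 ∉ p.2 := by
  unfold D
  rw [mem_filter, mem_product, mem_powerset]
  tauto

/-- sum over pointed sets, base point first -/
theorem sum_D_one (G : Finset ι) (f : ι → Finset ι → ℝ) :
    ∑ p ∈ D G, f p.1 p.2 = ∑ z ∈ G, ∑ A ∈ (G.erase z).powerset, f z A := by
  unfold D
  rw [Finset.sum_filter, Finset.sum_product]
  refine Finset.sum_congr rfl fun z hz => ?_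
  rw [← Finset.sum_filter]
  refine Finset.sum_congr ?_ fun _ _ => rfl
  ext A
  simp only [mem_filter, mem_powerset, subset_erase]

/-- sum over pointed sets, set first -/
theorem sum_D_two (G : Finset ι) (f : ι → Finset ι → ℝ) :
    ∑ p ∈ D G, f p.1 p.2 = ∑ A ∈ G.powerset, ∑ z ∈ G \ A, f z A := by
  unfold D
  rw [Finset.sum_filter, Finset.sum_product_right]
  refine Finset.sum_congr rfl fun A hA => ?_
  rw [← Finset.sum_filter]
  refine Finset.sum_congr ?_ fun _ _ => rfl
  ext z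
  simp only [mem_filter, mem_sdiff]

/-- sum over pointed sets, by the union -/
theorem sum_D_three (G : Finset ι) (f : ι → Finset ι → ℝ) :
    ∑ p ∈ D G, f p.1 p.2 = ∑ C ∈ G.powerset, ∑ z ∈ C, f z (C.erase z) := by
  rw [Finset.sum_sigma']
  refine Finset.sum_nbij' (i := fun p => (⟨insert p.1 p.2, p.1⟩ : Σ _ : Finset ι, ι))
    (j := fun s => (s.2, s.1.erase s.2)) ?_ ?_ ?_ ?_ ?_
  · intro p hp
    rw [mem_D] at hp
    simp only [mem_sigma, mem_powerset, mem_insert_self, and_true]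
    exact insert_subset hp.1 hp.2.1
  · rintro ⟨C, z⟩ hs
    simp only [mem_sigma, mem_powerset] at hs
    rw [mem_D]
    exact ⟨hs.1 hs.2, (erase_subset _ _).trans hs.1, by simp⟩
  · intro p hp
    rw [mem_D] at hp
    ext1
    · rfl
    · exact erase_insert hp.2.2
  · rintro ⟨C, z⟩ hs
    simp only [mem_sigma, mem_powerset] at hs
    simp only [insert_erase hs.2]
  · intro p hp
    rw [mem_D] at hp
    simp only [erase_insert hp.2.2]

/-- subsets avoiding `y` -/
theorem sum_pow_notMem (G : Finset ι) (y : ι) (f : Finset ι → ℝ) :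
    ∑ A ∈ G.powerset, (if y ∉ A then f A else 0) = ∑ A ∈ (G.erase y).powerset, f A := by
  rw [← Finset.sum_filter]
  refine Finset.sum_congr ?_ fun _ _ => rfl
  ext A
  simp only [mem_filter, mem_powerset, subset_erase]

/-- subsets containing `y` -/
theorem sum_pow_mem (G : Finset ι) {y : ι} (hy : y ∈ G) (f : Finset ι → ℝ) :
    ∑ A ∈ G.powerset, (if y ∈ A then f A else 0)
      = ∑ A ∈ (G.erase y).powerset, f (insert y A) := by
  rw [← Finset.sum_filter]
  symm
  refine Finset.sum_nbij' (i := fun A => insert y A) (j := fun A => A.erase y) ?_ ?_ ?_ ?_ ?_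
  · intro A hA
    simp only [mem_powerset, subset_erase] at hA
    simp only [mem_filter, mem_powerset, mem_insert_self, and_true]
    exact insert_subset hy hA.1
  · intro A hA
    simp only [mem_filter, mem_powerset] at hA
    simp only [mem_powerset]
    exact erase_subset_erase _ hA.1
  · intro A hA
    simp only [mem_powerset, subset_erase] at hA
    exact erase_insert hA.2
  · intro A hA
    simp only [mem_filter, mem_powerset] at hA
    exact insert_erase hA.2
  · intro A hA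
    rfl

/-! ### cardinalities of symmetric differences -/

theorem card_sd (A B : Finset ι) : (symmDiff A B).card = (A \ B).card + (B \ A).card := by
  rw [symmDiff_def, sup_eq_union, card_union_of_disjoint disjoint_sdiff_sdiff]

theorem sd_comm (A B : Finset ι) : (symmDiff A B).card = (symmDiff B A).card := by
  rw [symmDiff_comm]

theorem card_sd_insert {A B : Finset ι} {b : ι} (hA : b ∉ A) (hB : b ∉ B) :
    (symmDiff A (insert b B)).card = (symmDiff A B).card + 1 := by
  rw [card_sd, card_sd]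
  have h1 : A \ insert b B = A \ B := by
    ext x; simp only [mem_sdiff, mem_insert, not_or]
    constructor
    · rintro ⟨h, _, h'⟩; exact ⟨h, h'⟩
    · rintro ⟨h, h'⟩; exact ⟨h, fun e => hA (e ▸ h), h'⟩
  have h2 : insert b B \ A = insert b (B \ A) := by
    rw [insert_sdiff_of_notMem _ hA]
  rw [h1, h2, card_insert_of_notMem (by simp [hB])]
  ring

theorem card_sd_insert' {A B : Finset ι} {b : ι} (hA : b ∈ A) (hB : b ∉ B) :
    (symmDiff A (insert b B)).card + 1 = (symmDiff A B).card := by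
  rw [card_sd, card_sd]
  have h1 : A \ B = insert b (A \ insert b B) := by
    ext x; simp only [mem_sdiff, mem_insert, not_or]
    constructor
    · rintro ⟨h, h'⟩
      by_cases e : x = b
      · exact Or.inl e
      · exact Or.inr ⟨h, e, h'⟩
    · rintro (h | ⟨h, _, h'⟩)
      · exact ⟨h ▸ hA, h ▸ hB⟩
      · exact ⟨h, h'⟩
  have h2 : insert b B \ A = B \ A := by
    rw [insert_sdiff_of_mem _ hA]
  rw [h1, h2, card_insert_of_notMem (by simp)]
  ring

/-! ### conversion of the seven kinds of terms into double sums over pointed sets -/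

/-- `Σ_z <F^{z0}, H^{z1}>` by the sets -/
theorem sum_ip_insert (b : ℕ → ℝ) (G : Finset ι) (F H : Finset ι → ℝ) :
    ∑ z ∈ G, ip b (G.erase z) F (fun A => H (insert z A))
      = ∑ A ∈ G.powerset, ∑ C ∈ G.powerset,
          F A * H C * (((C \ A).card : ℝ) * b ((symmDiff A C).card - 1)) := by
  have key : ∀ A ∈ G.powerset, ∀ C ∈ G.powerset,
      F A * H C * (((C \ A).card : ℝ) * b ((symmDiff A C).card - 1))
        = ∑ z ∈ G, (if z ∉ A then (if z ∈ C then
            F A * H C * b (symmDiff A (C.erase z)).card else 0) else 0) := by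
    intro A hA C hC
    rw [mem_powerset] at hA hC
    have e1 : ∀ z ∈ G, (if z ∉ A then (if z ∈ C then
            F A * H C * b (symmDiff A (C.erase z)).card else 0) else 0)
          = if z ∈ C \ A then F A * H C * b ((symmDiff A C).card - 1) else 0 := by
      intro z _
      by_cases h1 : z ∈ A
      · simp [h1]
      · by_cases h2 : z ∈ C
        · have h3 := card_sd_insert (A := A) (B := C.erase z) (b := z) h1 (by simp)
          rw [insert_erase h2] at h3
          simp only [h1, h2, mem_sdiff, not_false_eq_true, and_self, if_true]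
          rw [h3, Nat.add_sub_cancel]
        · simp [h1, h2]
    rw [Finset.sum_congr rfl e1, ← Finset.sum_filter]
    have e2 : G.filter (fun z => z ∈ C \ A) = C \ A := by
      ext z
      simp only [mem_filter, mem_sdiff]
      exact ⟨fun h => h.2, fun h => ⟨hC h.1, h⟩⟩
    rw [e2, Finset.sum_const, nsmul_eq_mul]
    ring
  rw [Finset.sum_congr rfl fun A hA => Finset.sum_congr rfl fun C hC => key A hA C hC]
  rw [Finset.sum_congr rfl fun A _ => Finset.sum_comm, Finset.sum_comm]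
  refine Finset.sum_congr rfl fun z hz => ?_
  unfold ip
  rw [← sum_pow_notMem]
  refine Finset.sum_congr rfl fun A _ => ?_
  by_cases hA : z ∈ A
  · simp [hA]
  · simp only [hA, not_false_eq_true, if_true]
    rw [sum_pow_mem G hz]
    refine Finset.sum_congr rfl fun B hB => ?_
    rw [mem_powerset, subset_erase] at hB
    rw [erase_insert hB.2]

/-- (C2) -/
theorem ip_Pt (b : ℕ → ℝ) (G : Finset ι) (K : ι → Finset ι → ℝ) :
    ip b G (Pt K G) (Pt K G)
      = ∑ p ∈ D G, ∑ q ∈ D G, K p.1 p.2 * K q.1 q.2 * b (symmDiff p.2 q.2).card := by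
  rw [sum_D_two G (fun a A => ∑ q ∈ D G, K a A * K q.1 q.2 * b (symmDiff A q.2).card)]
  unfold ip
  refine Finset.sum_congr rfl fun A _ => ?_
  have : ∀ a ∈ G \ A, (∑ q ∈ D G, K a A * K q.1 q.2 * b (symmDiff A q.2).card)
      = ∑ B ∈ G.powerset, ∑ z ∈ G \ B, K a A * K z B * b (symmDiff A B).card := by
    intro a _
    exact sum_D_two G (fun z B => K a A * K z B * b (symmDiff A B).card)
  rw [Finset.sum_congr rfl this, Finset.sum_comm]
  refine Finset.sum_congr rfl fun B _ => ?_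
  unfold Pt
  rw [Finset.sum_mul_sum, Finset.sum_mul]
  refine Finset.sum_congr rfl fun a _ => ?_
  rw [Finset.sum_mul]

/-- general double sum with `Vt` on the right -/
theorem sum_Vt (G : Finset ι) (K : ι → Finset ι → ℝ) (g : Finset ι → ℝ) :
    ∑ C ∈ G.powerset, Vt K C * g C = ∑ p ∈ D G, K p.1 p.2 * g (insert p.1 p.2) := by
  rw [sum_D_three G (fun z A => K z A * g (insert z A))]
  refine Finset.sum_congr rfl fun C _ => ?_
  unfold Vt
  rw [Finset.sum_mul]
  refine Finset.sum_congr rfl fun z hz => ?_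
  rw [insert_erase hz]

theorem sum_Pt (G : Finset ι) (K : ι → Finset ι → ℝ) (g : Finset ι → ℝ) :
    ∑ C ∈ G.powerset, Pt K G C * g C = ∑ p ∈ D G, K p.1 p.2 * g p.2 := by
  rw [sum_D_two G (fun z A => K z A * g A)]
  refine Finset.sum_congr rfl fun C _ => ?_
  unfold Pt
  rw [Finset.sum_mul]

/-- (C3) -/
theorem ip_Vt (b : ℕ → ℝ) (G : Finset ι) (K : ι → Finset ι → ℝ) :
    ip b G (Vt K) (Vt K)
      = ∑ p ∈ D G, ∑ q ∈ D G, K p.1 p.2 * K q.1 q.2
          * b (symmDiff (insert p.1 p.2) (insert q.1 q.2)).card := by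
  unfold ip
  have e1 : ∀ A : Finset ι, (∑ B ∈ G.powerset, Vt K A * Vt K B * b (symmDiff A B).card)
      = Vt K A * ∑ q ∈ D G, K q.1 q.2 * b (symmDiff A (insert q.1 q.2)).card := by
    intro A
    rw [← sum_Vt G K (fun B => b (symmDiff A B).card), Finset.mul_sum]
    exact Finset.sum_congr rfl fun B _ => by ring
  rw [Finset.sum_congr rfl fun A _ => e1 A, sum_Vt G K
    (fun A => ∑ q ∈ D G, K q.1 q.2 * b (symmDiff A (insert q.1 q.2)).card)]
  refine Finset.sum_congr rfl fun p _ => ?_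
  rw [Finset.mul_sum]
  exact Finset.sum_congr rfl fun B _ => by ring

/-- (C4) -/
theorem ip_PtVt (b : ℕ → ℝ) (G : Finset ι) (K : ι → Finset ι → ℝ) :
    ∑ z ∈ G, ip b (G.erase z) (Pt K G) (fun A => Vt K (insert z A))
      = ∑ p ∈ D G, ∑ q ∈ D G, K p.1 p.2 * K q.1 q.2
          * (((insert q.1 q.2 \ p.2).card : ℝ) * b ((symmDiff p.2 (insert q.1 q.2)).card - 1)) := by
  rw [sum_ip_insert]
  have e1 : ∀ A : Finset ι, (∑ C ∈ G.powerset, Pt K G A * Vt K C *
        (((C \ A).card : ℝ) * b ((symmDiff A C).card - 1)))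
      = Pt K G A * ∑ q ∈ D G, K q.1 q.2 *
        (((insert q.1 q.2 \ A).card : ℝ) * b ((symmDiff A (insert q.1 q.2)).card - 1)) := by
    intro A
    rw [← sum_Vt G K (fun C => ((C \ A).card : ℝ) * b ((symmDiff A C).card - 1)), Finset.mul_sum]
    exact Finset.sum_congr rfl fun B _ => by ring
  rw [Finset.sum_congr rfl fun A _ => e1 A, sum_Pt G K
    (fun A => ∑ q ∈ D G, K q.1 q.2 *
        (((insert q.1 q.2 \ A).card : ℝ) * b ((symmDiff A (insert q.1 q.2)).card - 1)))]
  refine Finset.sum_congr rfl fun p _ => ?_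
  rw [Finset.mul_sum]
  exact Finset.sum_congr rfl fun B _ => by ring

/-- (C5) -/
theorem ip_KPt (b : ℕ → ℝ) (G : Finset ι) (K : ι → Finset ι → ℝ) :
    ∑ z ∈ G, ip b (G.erase z) (K z) (Pt K G)
      = ∑ p ∈ D G, ∑ q ∈ D G, K p.1 p.2 * K q.1 q.2
          * (if p.1 ∉ q.2 then b (symmDiff p.2 q.2).card else 0) := by
  rw [sum_D_one G (fun a A => ∑ q ∈ D G, K a A * K q.1 q.2
          * (if a ∉ q.2 then b (symmDiff A q.2).card else 0))]
  refine Finset.sum_congr rfl fun z hz => ?_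
  unfold ip
  refine Finset.sum_congr rfl fun A _ => ?_
  rw [← sum_pow_notMem]
  have := sum_Pt G K (fun B => K z A * (if z ∉ B then b (symmDiff A B).card else 0))
  rw [show (∑ q ∈ D G, K z A * K q.1 q.2 * (if z ∉ q.2 then b (symmDiff A q.2).card else 0))
      = ∑ q ∈ D G, K q.1 q.2 * (K z A * (if z ∉ q.2 then b (symmDiff A q.2).card else 0)) from
      Finset.sum_congr rfl fun q _ => by ring, ← this]
  refine Finset.sum_congr rfl fun B _ => ?_
  by_cases h : z ∈ B
  · simp [h]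
  · simp only [h, not_false_eq_true, if_true]; ring

/-- (C6) -/
theorem ip_KVt (b : ℕ → ℝ) (G : Finset ι) (K : ι → Finset ι → ℝ) :
    ∑ z ∈ G, ip b (G.erase z) (K z) (fun A => Vt K (insert z A))
      = ∑ p ∈ D G, ∑ q ∈ D G, K p.1 p.2 * K q.1 q.2
          * (if p.1 ∈ insert q.1 q.2 then
              b ((symmDiff p.2 (insert q.1 q.2)).card - 1) else 0) := by
  rw [sum_D_one G (fun a A => ∑ q ∈ D G, K a A * K q.1 q.2
          * (if a ∈ insert q.1 q.2 then b ((symmDiff A (insert q.1 q.2)).card - 1) else 0))]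
  refine Finset.sum_congr rfl fun z hz => ?_
  unfold ip
  refine Finset.sum_congr rfl fun A hA => ?_
  rw [mem_powerset, subset_erase] at hA
  have := sum_Vt G K (fun C => K z A * (if z ∈ C then b ((symmDiff A C).card - 1) else 0))
  rw [show (∑ q ∈ D G, K z A * K q.1 q.2 *
        (if z ∈ insert q.1 q.2 then b ((symmDiff A (insert q.1 q.2)).card - 1) else 0))
      = ∑ q ∈ D G, K q.1 q.2 * (K z A *
        (if z ∈ insert q.1 q.2 then b ((symmDiff A (insert q.1 q.2)).card - 1) else 0)) from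
      Finset.sum_congr rfl fun q _ => by ring, ← this]
  have e2 : ∀ C ∈ G.powerset,
      Vt K C * (K z A * (if z ∈ C then b ((symmDiff A C).card - 1) else 0))
      = if z ∈ C then Vt K C * (K z A * b ((symmDiff A C).card - 1)) else 0 := by
    intro C _
    by_cases h : z ∈ C <;> simp [h]
  rw [Finset.sum_congr rfl e2, sum_pow_mem G hz]
  refine Finset.sum_congr rfl fun B hB => ?_
  rw [mem_powerset, subset_erase] at hB
  rw [card_sd_insert hA.2 hB.2, Nat.add_sub_cancel]
  ring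

/-! ### pairs of pointed sets -/

theorem sum_DD (G : Finset ι) (F : ι → Finset ι → ι → Finset ι → ℝ) :
    ∑ p ∈ D G, ∑ q ∈ D G, F p.1 p.2 q.1 q.2
      = ∑ x ∈ G, ∑ y ∈ G, ∑ A ∈ (G.erase x).powerset, ∑ B ∈ (G.erase y).powerset,
          F x A y B := by
  rw [sum_D_one G (fun x A => ∑ q ∈ D G, F x A q.1 q.2)]
  refine Finset.sum_congr rfl fun x _ => ?_
  have : ∀ A ∈ (G.erase x).powerset, ∑ q ∈ D G, F x A q.1 q.2
      = ∑ y ∈ G, ∑ B ∈ (G.erase y).powerset, F x A y B := by
    intro A _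
    exact sum_D_one G (fun y B => F x A y B)
  rw [Finset.sum_congr rfl this, Finset.sum_comm]

theorem pair_diag (G : Finset ι) (F : ι → Finset ι → ι → Finset ι → ℝ) :
    ∑ p ∈ D G, ∑ q ∈ D G, (if p.1 = q.1 then F p.1 p.2 q.1 q.2 else 0)
      = ∑ x ∈ G, ∑ A ∈ (G.erase x).powerset, ∑ B ∈ (G.erase x).powerset, F x A x B := by
  rw [sum_DD G (fun x A y B => if x = y then F x A y B else 0)]
  refine Finset.sum_congr rfl fun x hx => ?_
  rw [Finset.sum_eq_single x]
  · simp
  · intro y _ hy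
    simp [Ne.symm hy]
  · intro h; exact absurd hx h

theorem pair_aux (G : Finset ι) (F : ι → Finset ι → ι → Finset ι → ℝ)
    (hF : ∀ x A B, F x A x B = 0) :
    ∑ p ∈ D G, ∑ q ∈ D G, F p.1 p.2 q.1 q.2
      = ∑ x ∈ G, ∑ y ∈ G.erase x, ∑ A ∈ (G.erase x).powerset, ∑ B ∈ (G.erase y).powerset,
          F x A y B := by
  rw [sum_DD]
  refine Finset.sum_congr rfl fun x hx => ?_
  rw [← Finset.add_sum_erase G _ hx]
  simp [hF]

theorem pair_zero_zero (G : Finset ι) (F : ι → Finset ι → ι → Finset ι → ℝ) :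
    ∑ p ∈ D G, ∑ q ∈ D G, (if p.1 ≠ q.1 ∧ p.1 ∉ q.2 ∧ q.1 ∉ p.2 then F p.1 p.2 q.1 q.2 else 0)
      = ∑ x ∈ G, ∑ y ∈ G.erase x, ∑ A ∈ ((G.erase x).erase y).powerset,
          ∑ B ∈ ((G.erase x).erase y).powerset, F x A y B := by
  rw [pair_aux G (fun x A y B => if x ≠ y ∧ x ∉ B ∧ y ∉ A then F x A y B else 0)
    (fun x A B => by simp)]
  refine Finset.sum_congr rfl fun x hx => Finset.sum_congr rfl fun y hy => ?_
  rw [mem_erase] at hy
  rw [← sum_pow_notMem (G.erase x) y
    (fun A => ∑ B ∈ ((G.erase x).erase y).powerset, F x A y B)]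
  refine Finset.sum_congr rfl fun A _ => ?_
  by_cases hA : y ∈ A
  · simp [hA]
  · rw [erase_right_comm, ← sum_pow_notMem (G.erase y) x (fun B => F x A y B)]
    simp only [hA, not_false_eq_true, if_true, and_true, Ne.symm hy.1, ne_eq, true_and]

theorem pair_one_one (G : Finset ι) (F : ι → Finset ι → ι → Finset ι → ℝ) :
    ∑ p ∈ D G, ∑ q ∈ D G, (if p.1 ≠ q.1 ∧ p.1 ∈ q.2 ∧ q.1 ∈ p.2 then F p.1 p.2 q.1 q.2 else 0)
      = ∑ x ∈ G, ∑ y ∈ G.erase x, ∑ A ∈ ((G.erase x).erase y).powerset,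
          ∑ B ∈ ((G.erase x).erase y).powerset, F x (insert y A) y (insert x B) := by
  rw [pair_aux G (fun x A y B => if x ≠ y ∧ x ∈ B ∧ y ∈ A then F x A y B else 0)
    (fun x A B => by simp)]
  refine Finset.sum_congr rfl fun x hx => Finset.sum_congr rfl fun y hy => ?_
  rw [← sum_pow_mem (G.erase x) hy
    (fun A => ∑ B ∈ ((G.erase x).erase y).powerset, F x A y (insert x B))]
  rw [mem_erase] at hy
  have hx' : x ∈ G.erase y := mem_erase.2 ⟨Ne.symm hy.1, hx⟩
  refine Finset.sum_congr rfl fun A _ => ?_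
  by_cases hA : y ∈ A
  · rw [erase_right_comm, ← sum_pow_mem (G.erase y) hx' (fun B => F x A y B)]
    simp only [hA, if_true, and_true, Ne.symm hy.1, ne_eq, not_false_eq_true, true_and]
  · simp [hA]

theorem pair_one_zero (G : Finset ι) (F : ι → Finset ι → ι → Finset ι → ℝ) :
    ∑ p ∈ D G, ∑ q ∈ D G, (if p.1 ≠ q.1 ∧ p.1 ∉ q.2 ∧ q.1 ∈ p.2 then F p.1 p.2 q.1 q.2 else 0)
      = ∑ x ∈ G, ∑ y ∈ G.erase x, ∑ A ∈ ((G.erase x).erase y).powerset,
          ∑ B ∈ ((G.erase x).erase y).powerset, F x (insert y A) y B := by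
  rw [pair_aux G (fun x A y B => if x ≠ y ∧ x ∉ B ∧ y ∈ A then F x A y B else 0)
    (fun x A B => by simp)]
  refine Finset.sum_congr rfl fun x hx => Finset.sum_congr rfl fun y hy => ?_
  rw [← sum_pow_mem (G.erase x) hy
    (fun A => ∑ B ∈ ((G.erase x).erase y).powerset, F x A y B)]
  rw [mem_erase] at hy
  refine Finset.sum_congr rfl fun A _ => ?_
  by_cases hA : y ∈ A
  · rw [erase_right_comm, ← sum_pow_notMem (G.erase y) x (fun B => F x A y B)]
    simp only [hA, if_true, and_true, Ne.symm hy.1, ne_eq, not_false_eq_true, true_and]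
  · simp [hA]

/-! ### symmetric difference of sets with marked elements -/

theorem card_sd_cross {A B : Finset ι} {x y : ι} (hxy : x ≠ y) (hxA : x ∉ A) (hyA : y ∉ A)
    (hxB : x ∉ B) (hyB : y ∉ B) :
    (symmDiff (insert y A) (insert x B)).card = (symmDiff A B).card + 2 := by
  have h1 : x ∉ insert y A := by simp [hxy, hxA]
  rw [card_sd_insert h1 hxB, sd_comm, card_sd_insert hyB hyA, sd_comm]

/-- the form `LL_r[K]` -/
def LL (β : ℕ → ℕ → ℝ) (G : Finset ι) (K : ι → Finset ι → ℝ) (r : ℕ) : ℝ :=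
  ((r : ℝ) + 1) ^ 2 * ∑ z ∈ G, ip (β r) (G.erase z) (K z) (K z)
    + ((r : ℝ) + 1) * ∑ b ∈ G, ∑ c ∈ G.erase b,
        (ip (β r) ((G.erase b).erase c) (K b) (K c)
          + ip (β r) ((G.erase b).erase c) (fun A => K b (insert c A)) (fun A => K c (insert b A)))
    + 2 * ∑ x ∈ G, ∑ y ∈ G.erase x, ∑ z ∈ (G.erase x).erase y,
        ip (β (r + 1)) (((G.erase x).erase y).erase z)
          (fun A => K x (insert y A)) (fun A => K y (insert z A))

/-- (C1) -/
theorem ip_KK (b : ℕ → ℝ) (G : Finset ι) (K : ι → Finset ι → ℝ) :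
    ∑ z ∈ G, ip b (G.erase z) (K z) (K z)
      = ∑ p ∈ D G, ∑ q ∈ D G, K p.1 p.2 * K q.1 q.2
          * (if p.1 = q.1 then b (symmDiff p.2 q.2).card else 0) := by
  have := pair_diag G (fun x A y B => K x A * K y B * b (symmDiff A B).card)
  unfold ip
  rw [← this]
  refine Finset.sum_congr rfl fun p _ => Finset.sum_congr rfl fun q _ => ?_
  by_cases h : p.1 = q.1 <;> simp [h]

/-- (C7) -/
theorem ip_pair_zero (b : ℕ → ℝ) (G : Finset ι) (K : ι → Finset ι → ℝ) :
    ∑ x ∈ G, ∑ y ∈ G.erase x, ip b ((G.erase x).erase y) (K x) (K y)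
      = ∑ p ∈ D G, ∑ q ∈ D G, K p.1 p.2 * K q.1 q.2
          * (if p.1 ≠ q.1 ∧ p.1 ∉ q.2 ∧ q.1 ∉ p.2 then b (symmDiff p.2 q.2).card else 0) := by
  have := pair_zero_zero G (fun x A y B => K x A * K y B * b (symmDiff A B).card)
  unfold ip
  rw [← this]
  refine Finset.sum_congr rfl fun p _ => Finset.sum_congr rfl fun q _ => ?_
  by_cases h : p.1 ≠ q.1 ∧ p.1 ∉ q.2 ∧ q.1 ∉ p.2
  · rw [if_pos h, if_pos h]
  · rw [if_neg h, if_neg h, mul_zero]

/-- (C8) -/
theorem ip_pair_one (b : ℕ → ℝ) (G : Finset ι) (K : ι → Finset ι → ℝ) :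
    ∑ x ∈ G, ∑ y ∈ G.erase x, ip b ((G.erase x).erase y)
        (fun A => K x (insert y A)) (fun A => K y (insert x A))
      = ∑ p ∈ D G, ∑ q ∈ D G, K p.1 p.2 * K q.1 q.2
          * (if p.1 ≠ q.1 ∧ p.1 ∈ q.2 ∧ q.1 ∈ p.2 then
              b ((symmDiff p.2 q.2).card - 2) else 0) := by
  have := pair_one_one G (fun x A y B => K x A * K y B * b ((symmDiff A B).card - 2))
  have e : ∑ p ∈ D G, ∑ q ∈ D G, K p.1 p.2 * K q.1 q.2
          * (if p.1 ≠ q.1 ∧ p.1 ∈ q.2 ∧ q.1 ∈ p.2 then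
              b ((symmDiff p.2 q.2).card - 2) else 0)
      = ∑ p ∈ D G, ∑ q ∈ D G, (if p.1 ≠ q.1 ∧ p.1 ∈ q.2 ∧ q.1 ∈ p.2 then
          K p.1 p.2 * K q.1 q.2 * b ((symmDiff p.2 q.2).card - 2) else 0) := by
    refine Finset.sum_congr rfl fun p _ => Finset.sum_congr rfl fun q _ => ?_
    by_cases h : p.1 ≠ q.1 ∧ p.1 ∈ q.2 ∧ q.1 ∈ p.2
    · rw [if_pos h, if_pos h]
    · rw [if_neg h, if_neg h, mul_zero]
  rw [e, this]
  refine Finset.sum_congr rfl fun x hx => Finset.sum_congr rfl fun y hy => ?_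
  unfold ip
  refine Finset.sum_congr rfl fun A hA => Finset.sum_congr rfl fun B hB => ?_
  rw [mem_erase] at hy
  simp only [mem_powerset, subset_erase] at hA hB
  rw [card_sd_cross (Ne.symm hy.1) hA.1.2 hA.2 hB.1.2 hB.2, Nat.add_sub_cancel]

/-- (C9) -/
theorem ip_triple (b : ℕ → ℝ) (G : Finset ι) (K : ι → Finset ι → ℝ) :
    ∑ x ∈ G, ∑ y ∈ G.erase x, ∑ z ∈ (G.erase x).erase y,
        ip b (((G.erase x).erase y).erase z)
          (fun A => K x (insert y A)) (fun A => K y (insert z A))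
      = ∑ p ∈ D G, ∑ q ∈ D G, K p.1 p.2 * K q.1 q.2
          * (if p.1 ≠ q.1 ∧ p.1 ∉ q.2 ∧ q.1 ∈ p.2 then
              ((q.2 \ p.2).card : ℝ) * b ((symmDiff p.2 q.2).card - 2) else 0) := by
  have := pair_one_zero G (fun x A y B => K x A * K y B *
    (((B \ A).card : ℝ) * b ((symmDiff A B).card - 2)))
  have e : ∑ p ∈ D G, ∑ q ∈ D G, K p.1 p.2 * K q.1 q.2
          * (if p.1 ≠ q.1 ∧ p.1 ∉ q.2 ∧ q.1 ∈ p.2 then
              ((q.2 \ p.2).card : ℝ) * b ((symmDiff p.2 q.2).card - 2) else 0)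
      = ∑ p ∈ D G, ∑ q ∈ D G, (if p.1 ≠ q.1 ∧ p.1 ∉ q.2 ∧ q.1 ∈ p.2 then
          K p.1 p.2 * K q.1 q.2 *
            (((q.2 \ p.2).card : ℝ) * b ((symmDiff p.2 q.2).card - 2)) else 0) := by
    refine Finset.sum_congr rfl fun p _ => Finset.sum_congr rfl fun q _ => ?_
    by_cases h : p.1 ≠ q.1 ∧ p.1 ∉ q.2 ∧ q.1 ∈ p.2
    · rw [if_pos h, if_pos h]
    · rw [if_neg h, if_neg h, mul_zero]
  rw [e, this]
  refine Finset.sum_congr rfl fun x hx => Finset.sum_congr rfl fun y hy => ?_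
  rw [sum_ip_insert b ((G.erase x).erase y) (fun A => K x (insert y A)) (K y)]
  refine Finset.sum_congr rfl fun A hA => Finset.sum_congr rfl fun B hB => ?_
  rw [mem_erase] at hy
  simp only [mem_powerset, subset_erase] at hA hB
  have h1 : B \ insert y A = B \ A := by
    ext w; simp only [mem_sdiff, mem_insert, not_or]
    exact ⟨fun h => ⟨h.1, h.2.2⟩, fun h => ⟨h.1, fun e => hB.2 (e ▸ h.1), h.2⟩⟩
  have h2 : (symmDiff (insert y A) B).card - 2 = (symmDiff A B).card - 1 := by
    rw [sd_comm, card_sd_insert hB.2 hA.2, sd_comm]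
    omega
  rw [h1, h2]

/-! ### the pointwise identity -/

theorem card_insert_sdiff' {A B : Finset ι} {b : ι} (hA : b ∉ A) (hB : b ∉ B) :
    (insert b B \ A).card = (B \ A).card + 1 := by
  rw [insert_sdiff_of_notMem _ hA, card_insert_of_notMem (by simp [hB])]

/-- left kernel -/
noncomputable def lk (β : ℕ → ℕ → ℝ) (r : ℕ) (a : ι) (A : Finset ι) (b : ι) (B : Finset ι) : ℝ :=
  ((r : ℝ) + 1) ^ 2 * (if a = b then β (r + 1) (symmDiff A B).card else 0)
    + 2 * (((insert b B \ A).card : ℝ) * β (r + 1) ((symmDiff A (insert b B)).card - 1))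
    + 2 * ((r : ℝ) + 1) * ((if a ∉ B then β (r + 1) (symmDiff A B).card else 0)
        + (if a ∈ insert b B then β (r + 1) ((symmDiff A (insert b B)).card - 1) else 0))
    - ((r : ℝ) + 1) * (β r (symmDiff A B).card + β r (symmDiff (insert a A) (insert b B)).card)

/-- right kernel -/
noncomputable def rk (β : ℕ → ℕ → ℝ) (r : ℕ) (a : ι) (A : Finset ι) (b : ι) (B : Finset ι) : ℝ :=
  ((r : ℝ) + 2) ^ 2 * (if a = b then β (r + 1) (symmDiff A B).card else 0)
    + ((r : ℝ) + 2) * ((if a ≠ b ∧ a ∉ B ∧ b ∉ A then β (r + 1) (symmDiff A B).card else 0)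
        + (if a ≠ b ∧ a ∈ B ∧ b ∈ A then β (r + 1) ((symmDiff A B).card - 2) else 0))
    + 2 * (if a ≠ b ∧ a ∉ B ∧ b ∈ A then
        ((B \ A).card : ℝ) * β (r + 2) ((symmDiff A B).card - 2) else 0)

section point

variable {β : ℕ → ℕ → ℝ} (h1 : ∀ r S, β (r + 1) S = β r S - β r (S + 2))
  (h2 : ∀ r S : ℕ, (2 * (r : ℝ) + 3 + S) * β (r + 1) S = 2 * ((r : ℝ) + 1) * β r S)

include h1 h2

theorem point_eq (r : ℕ) {a : ι} {A B : Finset ι} (hA : a ∉ A) (hB : a ∉ B) :
    lk β r a A a B + lk β r a B a A = rk β r a A a B + rk β r a B a A := by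
  unfold lk rk
  rw [card_insert_sdiff' hA hB, card_insert_sdiff' hB hA, card_sd_insert hA hB,
    card_sd_insert hB hA]
  have e1 : (symmDiff (insert a A) (insert a B)).card = (symmDiff A B).card := by
    have := card_sd_insert' (A := insert a A) (B := B) (b := a) (by simp) hB
    rw [sd_comm (insert a A) B, card_sd_insert hB hA, sd_comm B A] at this
    omega
  rw [sd_comm (insert a B) (insert a A), e1, sd_comm B A, card_sd A B]
  have k2 := h2 r ((A \ B).card + (B \ A).card)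
  simp only [if_true, hA, hB, not_false_eq_true, mem_insert_self, Nat.add_sub_cancel, ne_eq,
    not_true_eq_false, false_and, if_false, and_true, and_self]
  push_cast at k2 ⊢
  linear_combination 2 * k2

theorem point_out (r : ℕ) {a b : ι} {A B : Finset ι} (hab : a ≠ b) (haA : a ∉ A) (haB : a ∉ B)
    (hbA : b ∉ A) (hbB : b ∉ B) :
    lk β r a A b B + lk β r b B a A = rk β r a A b B + rk β r b B a A := by
  unfold lk rk
  have hab' : b ≠ a := hab.symm
  have ha1 : a ∉ insert b B := by simp [hab, haB]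
  have hb1 : b ∉ insert a A := by simp [hab', hbA]
  rw [card_insert_sdiff' hbA hbB, card_insert_sdiff' haB haA, card_sd_insert hbA hbB,
    card_sd_insert haB haA, sd_comm (insert b B) (insert a A), card_sd_insert hb1 hbB,
    sd_comm (insert a A) B, card_sd_insert haB haA, sd_comm B A, card_sd A B]
  have k2 := h2 r ((A \ B).card + (B \ A).card)
  have k1 := h1 r ((A \ B).card + (B \ A).card)
  rw [show (A \ B).card + (B \ A).card + 1 + 1 = (A \ B).card + (B \ A).card + 2 by ring]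
  simp only [hab, hab', haA, haB, hbA, hbB, ha1, hb1, if_true, if_false, not_false_eq_true,
    Nat.add_sub_cancel, ne_eq, false_and, and_true, and_self, and_false, true_and]
  push_cast at k1 k2 ⊢
  linear_combination 2 * k2 - 2 * ((r : ℝ) + 1) * k1

theorem point_in (r : ℕ) {a b : ι} {A B : Finset ι} (haA : a ∉ A) (haB : a ∈ B)
    (hbA : b ∈ A) (hbB : b ∉ B) :
    lk β r a A b B + lk β r b B a A = rk β r a A b B + rk β r b B a A := by
  have hab : a ≠ b := by rintro rfl; exact haA hbA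
  have hab' : b ≠ a := hab.symm
  unfold lk rk
  have ha1 : a ∈ insert b B := by simp [haB]
  have hb1 : b ∈ insert a A := by simp [hbA]
  have c1 := card_sd_insert' hbA hbB
  have c2 := card_sd_insert' haB haA
  have c3 := card_sd_insert' hb1 hbB
  rw [sd_comm (insert a A) B] at c3
  rw [sd_comm B A] at c2
  obtain ⟨m, hm⟩ : ∃ m, (symmDiff A B).card = m + 2 := ⟨(symmDiff A B).card - 2, by omega⟩
  have d1 : (symmDiff A (insert b B)).card = m + 1 := by omega
  have d2 : (symmDiff B (insert a A)).card = m + 1 := by omega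
  have d3 : (symmDiff (insert a A) (insert b B)).card = m := by omega
  have hc : (A \ B).card + (B \ A).card = m + 2 := by rw [← card_sd, hm]
  have hc' : ((A \ B).card : ℝ) + (B \ A).card = m + 2 := by exact_mod_cast hc
  rw [insert_sdiff_of_mem _ hbA, insert_sdiff_of_mem _ haB, d1, d2,
    sd_comm (insert b B) (insert a A), d3, sd_comm B A, hm]
  have k2 := h2 r m
  have k1 := h1 r m
  simp only [hab, hab', haA, haB, hbA, hbB, ha1, hb1, if_true, if_false, not_false_eq_true,
    not_true_eq_false, Nat.add_sub_cancel, ne_eq, false_and, and_true, and_self, and_false,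
    true_and]
  linear_combination 2 * k2 - 2 * ((r : ℝ) + 1) * k1 + 2 * β (r + 1) m * hc'

theorem point_mixed (r : ℕ) {a b : ι} {A B : Finset ι} (hab : a ≠ b) (haA : a ∉ A) (haB : a ∉ B)
    (hbA : b ∈ A) (hbB : b ∉ B) :
    lk β r a A b B + lk β r b B a A = rk β r a A b B + rk β r b B a A := by
  have hab' : b ≠ a := hab.symm
  unfold lk rk
  have ha1 : a ∉ insert b B := by simp [haB, hab]
  have hb1 : b ∈ insert a A := by simp [hbA]
  have c1 := card_sd_insert' hbA hbB
  have c2 := card_sd_insert haB haA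
  have c3 := card_sd_insert' hb1 hbB
  rw [sd_comm (insert a A) B] at c3
  rw [sd_comm B A] at c2
  rw [insert_sdiff_of_mem _ hbA, card_insert_sdiff' haB haA,
    sd_comm (insert b B) (insert a A), c2, sd_comm B A]
  have d1 : (symmDiff A (insert b B)).card = (symmDiff A B).card - 1 := by omega
  have d3 : (symmDiff (insert a A) (insert b B)).card = (symmDiff A B).card := by omega
  rw [d1, d3]
  have k2 := h2 r (symmDiff A B).card
  rcases Nat.eq_zero_or_pos (B \ A).card with h0 | h0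
  · have hc : (A \ B).card = (symmDiff A B).card := by rw [card_sd, h0, add_zero]
    rw [h0, hc]
    simp only [hab, hab', haA, haB, hbA, hbB, ha1, hb1, if_true, if_false, not_false_eq_true,
      not_true_eq_false, Nat.add_sub_cancel, ne_eq, false_and, and_true, and_self, and_false,
      true_and]
    push_cast at k2 ⊢
    linear_combination 2 * k2
  · obtain ⟨m, hm⟩ : ∃ m, (symmDiff A B).card = m + 2 := by
      have : 0 < (A \ B).card := card_pos.2 ⟨b, mem_sdiff.2 ⟨hbA, hbB⟩⟩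
      have := card_sd A B
      exact ⟨(symmDiff A B).card - 2, by omega⟩
    have hc : (A \ B).card + (B \ A).card = m + 2 := by rw [← card_sd, hm]
    have hc' : ((A \ B).card : ℝ) + (B \ A).card = m + 2 := by exact_mod_cast hc
    have k1 := h1 (r + 1) m
    rw [hm] at k2 ⊢
    rw [show m + 2 - 1 - 1 = m by omega]
    simp only [hab, hab', haA, haB, hbA, hbB, ha1, hb1, if_true, if_false, not_false_eq_true,
      not_true_eq_false, Nat.add_sub_cancel, ne_eq, false_and, and_true, and_self, and_false,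
      true_and]
    push_cast at k2 ⊢
    rw [show r + 1 + 1 = r + 2 by ring] at k1
    linear_combination 2 * k2 - 2 * ((B \ A).card : ℝ) * k1 + 2 * β (r + 1) (m + 2) * hc'

theorem point (r : ℕ) {a b : ι} {A B : Finset ι} (haA : a ∉ A) (hbB : b ∉ B) :
    lk β r a A b B + lk β r b B a A = rk β r a A b B + rk β r b B a A := by
  by_cases hab : a = b
  · subst hab; exact point_eq h1 h2 r haA hbB
  by_cases haB : a ∈ B
  · by_cases hbA : b ∈ A
    · exact point_in h1 h2 r haA haB hbA hbB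
    · have := point_mixed h1 h2 r (a := b) (b := a) (A := B) (B := A) (Ne.symm hab) hbB hbA haB haA
      linarith
  · by_cases hbA : b ∈ A
    · exact point_mixed h1 h2 r hab haA haB hbA hbB
    · exact point_out h1 h2 r hab haA haB hbA hbB

end point

/-- **Lemma C**, for abstract moments `β`. -/
theorem lemmaC {β : ℕ → ℕ → ℝ} (h1 : ∀ r S, β (r + 1) S = β r S - β r (S + 2))
    (h2 : ∀ r S : ℕ, (2 * (r : ℝ) + 3 + S) * β (r + 1) S = 2 * ((r : ℝ) + 1) * β r S)
    (G : Finset ι) (K : ι → Finset ι → ℝ) (r : ℕ) :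
    (∑ z ∈ G, (((r : ℝ) + 1) ^ 2 * ip (β (r + 1)) (G.erase z) (K z) (K z)
        + 2 * ip (β (r + 1)) (G.erase z) (Pt K G) (fun A => Vt K (insert z A))
        + 2 * ((r : ℝ) + 1) * (ip (β (r + 1)) (G.erase z) (K z) (Pt K G)
            + ip (β (r + 1)) (G.erase z) (K z) (fun A => Vt K (insert z A)))))
      - ((r : ℝ) + 1) * (ip (β r) G (Pt K G) (Pt K G) + ip (β r) G (Vt K) (Vt K))
      = LL β G K (r + 1) := by
  have hl : (∑ z ∈ G, (((r : ℝ) + 1) ^ 2 * ip (β (r + 1)) (G.erase z) (K z) (K z)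
        + 2 * ip (β (r + 1)) (G.erase z) (Pt K G) (fun A => Vt K (insert z A))
        + 2 * ((r : ℝ) + 1) * (ip (β (r + 1)) (G.erase z) (K z) (Pt K G)
            + ip (β (r + 1)) (G.erase z) (K z) (fun A => Vt K (insert z A)))))
      - ((r : ℝ) + 1) * (ip (β r) G (Pt K G) (Pt K G) + ip (β r) G (Vt K) (Vt K))
      = ∑ p ∈ D G, ∑ q ∈ D G, K p.1 p.2 * K q.1 q.2 * lk β r p.1 p.2 q.1 q.2 := by
    rw [Finset.sum_add_distrib, Finset.sum_add_distrib, ← Finset.mul_sum, ← Finset.mul_sum,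
      ← Finset.mul_sum, Finset.sum_add_distrib, ip_KK, ip_PtVt, ip_KPt, ip_KVt, ip_Pt, ip_Vt]
    simp only [Finset.mul_sum, ← Finset.sum_add_distrib, ← Finset.sum_sub_distrib]
    refine Finset.sum_congr rfl fun p _ => Finset.sum_congr rfl fun q _ => ?_
    unfold lk
    ring
  have hr : LL β G K (r + 1)
      = ∑ p ∈ D G, ∑ q ∈ D G, K p.1 p.2 * K q.1 q.2 * rk β r p.1 p.2 q.1 q.2 := by
    unfold LL
    simp only [Finset.sum_add_distrib]
    rw [ip_KK, ip_pair_zero, ip_pair_one, ip_triple]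
    simp only [Finset.mul_sum, ← Finset.sum_add_distrib, ← Finset.sum_sub_distrib]
    refine Finset.sum_congr rfl fun p _ => Finset.sum_congr rfl fun q _ => ?_
    unfold rk
    push_cast
    ring
  rw [hl, hr]
  have sym : ∀ F : ι × Finset ι → ι × Finset ι → ℝ, ∑ p ∈ D G, ∑ q ∈ D G, F p q
      = (∑ p ∈ D G, ∑ q ∈ D G, (F p q + F q p)) / 2 := by
    intro F
    simp only [Finset.sum_add_distrib]
    rw [Finset.sum_comm (f := fun p q => F q p)]
    ring
  rw [sym, sym (fun p q => K p.1 p.2 * K q.1 q.2 * rk β r p.1 p.2 q.1 q.2)]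
  congr 1
  refine Finset.sum_congr rfl fun p hp => Finset.sum_congr rfl fun q hq => ?_
  rw [mem_D] at hp hq
  have := point h1 h2 r hp.2.2 hq.2.2
  linear_combination K p.1 p.2 * K q.1 q.2 * this

end RL1C

namespace RL1

variable {α : Type*} [DecidableEq α]

theorem be_intervalIntegrable89 (r S : ℕ) (a b : ℝ) :
    IntervalIntegrable (fun t : ℝ => (1 - t ^ 2) ^ r * t ^ S) MeasureTheory.volume a b :=
  (by fun_prop : Continuous (fun t : ℝ => (1 - t ^ 2) ^ r * t ^ S)).intervalIntegrable a b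

theorem be_succ89 (r S : ℕ) : be (r + 1) S = be r S - be r (S + 2) := by
  unfold be
  rw [← intervalIntegral.integral_sub (be_intervalIntegrable89 _ _ _ _)
    (be_intervalIntegrable89 _ _ _ _)]
  refine intervalIntegral.integral_congr fun t _ => ?_
  show (1 - t ^ 2) ^ (r + 1) * t ^ S = (1 - t ^ 2) ^ r * t ^ S - (1 - t ^ 2) ^ r * t ^ (S + 2)
  ring

theorem be_parts89 (r S : ℕ) :
    ((S : ℝ) + 1) * be (r + 1) S = 2 * ((r : ℝ) + 1) * be r (S + 2) := by
  have hd : ∀ t ∈ Set.uIcc (0 : ℝ) 1, HasDerivAt (fun t : ℝ => (1 - t ^ 2) ^ (r + 1) * t ^ (S + 1))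
      (((S : ℝ) + 1) * ((1 - t ^ 2) ^ (r + 1) * t ^ S)
        - 2 * ((r : ℝ) + 1) * ((1 - t ^ 2) ^ r * t ^ (S + 2))) t := by
    intro t _
    have e1 : HasDerivAt (fun t : ℝ => 1 - t ^ 2) (-(2 * t)) t := by
      have := ((hasDerivAt_id t).pow 2).const_sub 1
      simpa using this
    have e2 := (e1.pow (r + 1)).mul (hasDerivAt_pow (S + 1) t)
    refine e2.congr_deriv ?_
    simp only [Nat.add_sub_cancel]
    have e3 : ((fun t : ℝ => 1 - t ^ 2) ^ (r + 1)) t = (1 - t ^ 2) ^ (r + 1) := rfl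
    rw [e3]
    push_cast
    ring
  have hi := intervalIntegral.integral_eq_sub_of_hasDerivAt hd
    (((be_intervalIntegrable89 _ _ _ _).const_mul _).sub
      ((be_intervalIntegrable89 _ _ _ _).const_mul _))
  rw [intervalIntegral.integral_sub ((be_intervalIntegrable89 _ _ _ _).const_mul _)
      ((be_intervalIntegrable89 _ _ _ _).const_mul _),
    intervalIntegral.integral_const_mul, intervalIntegral.integral_const_mul] at hi
  unfold be
  have : ((1 - (1 : ℝ) ^ 2) ^ (r + 1) * 1 ^ (S + 1)) - ((1 - (0 : ℝ) ^ 2) ^ (r + 1) * 0 ^ (S + 1))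
      = 0 := by simp
  linarith

theorem be_rec89 (r S : ℕ) :
    (2 * (r : ℝ) + 3 + S) * be (r + 1) S = 2 * ((r : ℝ) + 1) * be r S := by
  have h1 := be_parts89 r S
  have h2 := be_succ89 r S
  linear_combination h1 + 2 * ((r : ℝ) + 1) * h2

/-- **Lemma C** (P2 of RL1): for an arbitrary family `K z` of functions on the subsets of
`V.erase z`, with `Pt = Σ_z K_z` and `Vt = Σ_z ε_z K_z`. -/
theorem lemC (V : Finset α) (K : α → Finset α → ℝ) (r : ℕ) :
    (∑ z ∈ V, (((r : ℝ) + 1) ^ 2 * ip (r + 1) (V.erase z) (K z) (K z)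
        + 2 * ip (r + 1) (V.erase z) (RL1C.Pt K V) (fun A => RL1C.Vt K (insert z A))
        + 2 * ((r : ℝ) + 1) * (ip (r + 1) (V.erase z) (K z) (RL1C.Pt K V)
            + ip (r + 1) (V.erase z) (K z) (fun A => RL1C.Vt K (insert z A)))))
      - ((r : ℝ) + 1) * (ip r V (RL1C.Pt K V) (RL1C.Pt K V) + ip r V (RL1C.Vt K) (RL1C.Vt K))
      = QF (r + 1) V K := by
  have := RL1C.lemmaC (β := be) be_succ89 be_rec89 V K r
  refine this.trans ?_
  unfold RL1C.LL QF RL1C.ip ip
  rfl

end RL1
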