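import Pool.Agent.RL1.Phi

/-!
MP_3f3e0f_an: the marginals of the family of level 0 (the coupling).
-/

namespace RL1

open Finset

variable {α : Type*} [DecidableEq α]

/-- elementary symmetric function -/
noncomputable def esy (w : α → ℝ) (V : Finset α) (p : ℕ) : ℝ := ∑ A ∈ V.powersetCard p, wt w A

theorem rho_zero (b : ℕ) : rho 0 b = 1 / ((b : ℝ) + 1) := by
  unfold rho
  have h1 : (b.factorial : ℝ) ≠ 0 := by positivity
  have h2 : ((b + 0 + 1).factorial : ℝ) = ((b : ℝ) + 1) * (b.factorial : ℝ) := by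
    rw [show b + 0 + 1 = b + 1 by ring, Nat.factorial_succ]; push_cast; ring
  rw [h2]
  have h3 : ((b : ℝ) + 1) ≠ 0 := by positivity
  field_simp
  simp

theorem sum_powersetCard_eq (V : Finset α) (p : ℕ) (G : Finset α → ℝ) :
    ∑ B ∈ V.powersetCard p, G B = ∑ B ∈ V.powerset, if B.card = p then G B else 0 := by
  rw [← sum_filter]
  refine sum_congr ?_ fun _ _ => rfl
  ext B
  simp only [mem_powersetCard, mem_filter, mem_powerset]

/-- marginal of the first kind -/
theorem marg_out (w : α → ℝ) (γ : ℕ → ℝ) (V A : Finset α) :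
    ∑ a ∈ V \ A, Kf w γ 0 V a A = γ A.card * wt w A * esy w V (A.card + 1) := by
  have h1 : ∀ z ∈ V \ A, Kf w γ 0 V z A = ∑ B ∈ V.powerset, if z ∈ B then
      (if A.card + 1 = B.card then γ A.card * rho 0 ((B \ A).card - 1) * (wt w A * wt w B) else 0) else 0 := by
    intro z hz
    obtain ⟨hzV, hzA⟩ := mem_sdiff.1 hz
    rw [← sum_powerset_erase_insert hzV, Kf, Phi, mul_sum]
    refine sum_congr rfl fun B hB => ?_
    have hzB : z ∉ B := fun h => (mem_erase.1 (mem_powerset.1 hB h)).1 rfl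
    rw [card_insert_of_notMem hzB, insert_sdiff_of_notMem _ hzA,
      card_insert_of_notMem (fun h => hzB (mem_sdiff.1 h).1), wt_insert w hzB, Nat.add_sub_cancel]
    simp only [fr, Nat.add_right_cancel_iff, Nat.add_zero]
    split_ifs <;> ring
  rw [sum_congr rfl h1, sum_comm, esy, sum_powersetCard_eq, mul_sum]
  refine sum_congr rfl fun B hB => ?_
  rw [← sum_filter]
  have h2 : (V \ A).filter (fun z => z ∈ B) = B \ A := by
    ext z
    simp only [mem_filter, mem_sdiff]
    constructor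
    · rintro ⟨⟨_, h2⟩, h3⟩; exact ⟨h3, h2⟩
    · rintro ⟨h1, h2⟩; exact ⟨⟨mem_powerset.1 hB h1, h2⟩, h1⟩
  rw [h2, sum_const, nsmul_eq_mul]
  by_cases h : A.card + 1 = B.card
  · rw [if_pos h, if_pos h.symm]
    have hpos : 1 ≤ (B \ A).card := by
      have := le_card_sdiff A B
      omega
    obtain ⟨b, hb⟩ : ∃ b, (B \ A).card = b + 1 := ⟨(B \ A).card - 1, by omega⟩
    rw [hb, Nat.add_sub_cancel, rho_zero]
    have h3 : ((b : ℝ) + 1) ≠ 0 := by positivity
    push_cast
    field_simp
  · rw [if_neg h, if_neg (fun e => h e.symm)]; ring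

/-- marginal of the second kind -/
theorem marg_in (w : α → ℝ) (γ : ℕ → ℝ) (V A : Finset α) (hA : 1 ≤ A.card) :
    ∑ a ∈ A, Kf w γ 0 V a (A.erase a) = γ (A.card - 1) * wt w A * esy w V (A.card - 1) := by
  have h1 : ∀ z ∈ A, Kf w γ 0 V z (A.erase z) = ∑ B ∈ V.powerset, if z ∉ B then
      (if A.card = B.card + 1 then γ (A.card - 1) * rho 0 ((B \ A).card) * (wt w A * wt w B) else 0) else 0 := by
    intro z hz
    rw [← sum_powerset_erase, Kf, Phi, mul_sum]
    refine sum_congr rfl fun B hB => ?_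
    have hzB : z ∉ B := fun h => (mem_erase.1 (mem_powerset.1 hB h)).1 rfl
    have h2 : B \ A.erase z = B \ A := by
      ext y
      simp only [mem_sdiff, mem_erase]
      constructor
      · rintro ⟨h1, h2⟩
        exact ⟨h1, fun h => h2 ⟨fun h3 => hzB (h3 ▸ h1), h⟩⟩
      · rintro ⟨h1, h2⟩
        exact ⟨h1, fun h => h2 h.2⟩
    have h3 : wt w A = w z * wt w (A.erase z) := by
      conv_lhs => rw [← insert_erase hz]
      exact wt_insert w (notMem_erase _ _)
    have h4 : (A.erase z).card + 1 = A.card := by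
      rw [card_erase_of_mem hz]; have := card_pos.2 ⟨z, hz⟩; omega
    rw [h2, h3, ← h4]
    simp only [fr, Nat.add_right_cancel_iff, Nat.add_sub_cancel, Nat.add_zero]
    split_ifs <;> ring
  rw [sum_congr rfl h1, sum_comm, esy, sum_powersetCard_eq, mul_sum]
  refine sum_congr rfl fun B _ => ?_
  rw [← sum_filter]
  have h2 : A.filter (fun z => z ∉ B) = A \ B := by
    ext z
    simp only [mem_filter, mem_sdiff]
  rw [h2, sum_const, nsmul_eq_mul]
  by_cases h : A.card = B.card + 1
  · rw [if_pos h, if_pos (by omega)]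
    have hc : (A \ B).card = (B \ A).card + 1 := by
      have h5 := card_sdiff_add_card_inter A B
      have h6 := card_sdiff_add_card_inter B A
      rw [inter_comm] at h6
      omega
    rw [hc, rho_zero]
    have h3 : (((B \ A).card : ℝ) + 1) ≠ 0 := by positivity
    push_cast
    field_simp
  · rw [if_neg h, if_neg (by omega)]; ring

theorem idx_sum (V : Finset α) (G : α × Finset α → ℝ) :
    ∑ p ∈ idx V, G p = ∑ a ∈ V, ∑ A ∈ V.powerset, if a ∉ A then G (a, A) else 0 := by
  rw [idx, sum_filter, sum_product]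

/-- sum over the family against a function of the first set -/
theorem idx_out (w : α → ℝ) (γ : ℕ → ℝ) (V : Finset α) (G : Finset α → ℝ) :
    ∑ p ∈ idx V, Kf w γ 0 V p.1 p.2 * G p.2
      = ∑ p ∈ range (V.card + 1), γ p * esy w V (p + 1) * ∑ A ∈ V.powersetCard p, wt w A * G A := by
  rw [idx_sum, sum_comm]
  have h1 : ∀ A ∈ V.powerset, (∑ a ∈ V, if a ∉ A then Kf w γ 0 V a A * G A else 0)
      = γ A.card * wt w A * esy w V (A.card + 1) * G A := by
    intro A _
    rw [← marg_out, sum_mul, ← sum_filter]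
    refine sum_congr ?_ fun _ _ => rfl
    ext z
    simp only [mem_filter, mem_sdiff]
  rw [sum_congr rfl h1, sum_powerset]
  refine sum_congr rfl fun p _ => ?_
  rw [mul_sum]
  refine sum_congr rfl fun A hA => ?_
  rw [(mem_powersetCard.1 hA).2]
  ring

/-- sum over the family against a function of the enlarged set -/
theorem idx_in (w : α → ℝ) (γ : ℕ → ℝ) (V : Finset α) (G : Finset α → ℝ) :
    ∑ p ∈ idx V, Kf w γ 0 V p.1 p.2 * G (insert p.1 p.2)
      = ∑ p ∈ range (V.card + 1), γ p * esy w V p * ∑ A ∈ V.powersetCard (p + 1), wt w A * G A := by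
  rw [idx_sum]
  have h0 : ∀ a ∈ V, (∑ A ∈ V.powerset, if a ∉ A then Kf w γ 0 V a A * G (insert a A) else 0)
      = ∑ B ∈ V.powerset, if a ∈ B then Kf w γ 0 V a (B.erase a) * G B else 0 := by
    intro a ha
    rw [← sum_powerset_erase, ← sum_powerset_erase_insert ha]
    refine sum_congr rfl fun A hA => ?_
    rw [erase_insert (fun h => (mem_erase.1 (mem_powerset.1 hA h)).1 rfl)]
  have h0' : (∑ a ∈ V, ∑ A ∈ V.powerset, if a ∉ A then Kf w γ 0 V (a, A).1 (a, A).2 * G (insert (a, A).1 (a, A).2) else 0)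
      = ∑ a ∈ V, ∑ B ∈ V.powerset, if a ∈ B then Kf w γ 0 V a (B.erase a) * G B else 0 := sum_congr rfl h0
  rw [h0', sum_comm]
  have h1 : ∀ A ∈ V.powerset, (∑ a ∈ V, if a ∈ A then Kf w γ 0 V a (A.erase a) * G A else 0)
      = (∑ a ∈ A, Kf w γ 0 V a (A.erase a)) * G A := by
    intro A hA
    rw [sum_mul, ← sum_filter]
    refine sum_congr ?_ fun _ _ => rfl
    ext z
    simp only [mem_filter]
    exact ⟨fun h => h.2, fun h => ⟨mem_powerset.1 hA h, h⟩⟩
  rw [sum_congr rfl h1, sum_powerset, sum_range_succ', sum_range_succ]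
  have h2 : ∑ A ∈ V.powersetCard 0, (∑ a ∈ A, Kf w γ 0 V a (A.erase a)) * G A = 0 := by
    refine sum_eq_zero fun A hA => ?_
    rw [card_eq_zero.1 (mem_powersetCard.1 hA).2]
    simp
  have h3 : V.powersetCard (V.card + 1) = ∅ := powersetCard_eq_empty.2 (Nat.lt_succ_self _)
  rw [h2, h3, sum_empty, mul_zero]
  congr 1
  refine sum_congr rfl fun p _ => ?_
  rw [mul_sum]
  refine sum_congr rfl fun A hA => ?_
  have h4 := (mem_powersetCard.1 hA).2
  rw [marg_in w γ V A (by omega), h4, Nat.add_sub_cancel]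
  ring

end RL1
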