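import Pool.Agent.RL1.Defs

/-!
MP_3f3e0f_an: the functions `Phi`, splitting off a root, and the sums over the family of the next level.
-/

namespace RL1

open Finset

variable {α : Type*} [DecidableEq α]

theorem wt_insert (w : α → ℝ) {c : α} {A : Finset α} (h : c ∉ A) : wt w (insert c A) = w c * wt w A := by
  unfold wt; rw [prod_insert h]

/-- shift: the root is in the second set only -/
def fB (f : ℕ → ℕ → ℕ → ℝ) : ℕ → ℕ → ℕ → ℝ := fun i j b => f i (j + 1) (b + 1)

/-- shift: the root is in the first set only -/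
def fA (f : ℕ → ℕ → ℕ → ℝ) : ℕ → ℕ → ℕ → ℝ := fun i j b => f (i + 1) j b

/-- shift: the root is in both sets -/
def fAB (f : ℕ → ℕ → ℕ → ℝ) : ℕ → ℕ → ℕ → ℝ := fun i j b => f (i + 1) (j + 1) b

theorem Phi_insert (w : α → ℝ) {W A : Finset α} {c : α} (f : ℕ → ℕ → ℕ → ℝ) (hc : c ∉ W) (hA : c ∉ A) :
    Phi w (insert c W) f A = Phi w W f A + w c * Phi w W (fB f) A := by
  unfold Phi
  rw [sum_powerset_insert hc, mul_sum]
  congr 1
  refine sum_congr rfl fun B hB => ?_
  have hcB : c ∉ B := fun h => hc (mem_powerset.1 hB h)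
  rw [card_insert_of_notMem hcB, insert_sdiff_of_notMem _ hA,
    card_insert_of_notMem (fun h => hcB (mem_sdiff.1 h).1), wt_insert w hcB]
  unfold fB
  ring

theorem Phi_insert_mem (w : α → ℝ) {W A : Finset α} {c : α} (f : ℕ → ℕ → ℕ → ℝ) (hc : c ∉ W) (hA : c ∉ A) :
    Phi w (insert c W) f (insert c A) = w c * (Phi w W (fA f) A + w c * Phi w W (fAB f) A) := by
  unfold Phi
  rw [sum_powerset_insert hc, mul_add, mul_sum, mul_sum, mul_sum]
  congr 1
  · refine sum_congr rfl fun B hB => ?_
    have hcB : c ∉ B := fun h => hc (mem_powerset.1 hB h)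
    rw [card_insert_of_notMem hA, sdiff_insert, erase_eq_of_notMem (fun h => hcB (mem_sdiff.1 h).1), wt_insert w hA]
    unfold fA
    ring
  · refine sum_congr rfl fun B hB => ?_
    have hcB : c ∉ B := fun h => hc (mem_powerset.1 hB h)
    rw [card_insert_of_notMem hA, card_insert_of_notMem hcB, insert_sdiff_insert, sdiff_insert,
      erase_eq_of_notMem (fun h => hcB (mem_sdiff.1 h).1), wt_insert w hA, wt_insert w hcB]
    unfold fAB
    ring

theorem Phi_sub (w : α → ℝ) (W A : Finset α) (f g : ℕ → ℕ → ℕ → ℝ) :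
    Phi w W (fun i j b => f i j b - g i j b) A = Phi w W f A - Phi w W g A := by
  unfold Phi
  rw [← sum_sub_distrib]
  refine sum_congr rfl fun B _ => ?_
  ring

theorem rho_sub (r b : ℕ) : rho r b - rho r (b + 1) = rho (r + 1) b := by
  unfold rho
  have h1 : ((b + r + 1).factorial : ℝ) ≠ 0 := by positivity
  have h2 : ((b + 1 + r + 1).factorial : ℝ) = ((b : ℝ) + r + 2) * ((b + r + 1).factorial : ℝ) := by
    rw [show b + 1 + r + 1 = (b + r + 1) + 1 by ring, Nat.factorial_succ]; push_cast; ring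
  have h3 : ((b + (r + 1) + 1).factorial : ℝ) = ((b : ℝ) + r + 2) * ((b + r + 1).factorial : ℝ) := by
    rw [show b + (r + 1) + 1 = (b + r + 1) + 1 by ring, Nat.factorial_succ]; push_cast; ring
  have h4 : ((b + 1).factorial : ℝ) = ((b : ℝ) + 1) * (b.factorial : ℝ) := by
    rw [Nat.factorial_succ]; push_cast; ring
  have h5 : ((r + 1).factorial : ℝ) = ((r : ℝ) + 1) * (r.factorial : ℝ) := by
    rw [Nat.factorial_succ]; push_cast; ring
  rw [h2, h3, h4, h5]
  have h6 : ((b : ℝ) + r + 2) ≠ 0 := by positivity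
  field_simp
  ring

theorem rho_mul (r b : ℕ) : ((b : ℝ) + 1) * rho (r + 1) b = ((r : ℝ) + 1) * rho r (b + 1) := by
  unfold rho
  have h1 : ((b + r + 2).factorial : ℝ) ≠ 0 := by positivity
  have h2 : b + 1 + r + 1 = b + r + 2 := by ring
  have h3 : b + (r + 1) + 1 = b + r + 2 := by ring
  have h4 : ((b + 1).factorial : ℝ) = ((b : ℝ) + 1) * (b.factorial : ℝ) := by
    rw [Nat.factorial_succ]; push_cast; ring
  have h5 : ((r + 1).factorial : ℝ) = ((r : ℝ) + 1) * (r.factorial : ℝ) := by
    rw [Nat.factorial_succ]; push_cast; ring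
  rw [h2, h3, h4, h5]
  field_simp

theorem fr_succ (γ : ℕ → ℝ) (r : ℕ) : fr γ (r + 1) = fun i j b => fAB (fr γ r) i j b - fB (fA (fr γ r)) i j b := by
  funext i j b
  simp only [fr, fAB, fB, fA]
  by_cases h : i = j
  · subst h
    simp only [if_true]
    rw [← rho_sub, show i + (r + 1) = i + 1 + r by ring]
    ring
  · have : i + 1 ≠ j + 1 := by omega
    simp [h]

theorem Phi_fr_succ (w : α → ℝ) (γ : ℕ → ℝ) (r : ℕ) (W A : Finset α) :
    Phi w W (fr γ (r + 1)) A = Phi w W (fAB (fr γ r)) A - Phi w W (fB (fA (fr γ r))) A := by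
  rw [fr_succ, Phi_sub]

/-- sum over sets containing a given element -/
theorem sum_powerset_erase_insert {V : Finset α} {z : α} (hz : z ∈ V) (g : Finset α → ℝ) :
    ∑ B ∈ (V.erase z).powerset, g (insert z B) = ∑ B ∈ V.powerset, if z ∈ B then g B else 0 := by
  rw [← sum_filter]
  refine sum_bij' (fun B _ => insert z B) (fun B _ => B.erase z) ?_ ?_ ?_ ?_ ?_
  · intro B hB
    have h := mem_powerset.1 hB
    refine mem_filter.2 ⟨mem_powerset.2 (insert_subset hz (h.trans (erase_subset _ _))), mem_insert_self _ _⟩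
  · intro B hB
    obtain ⟨h1, _⟩ := mem_filter.1 hB
    exact mem_powerset.2 (erase_subset_erase _ (mem_powerset.1 h1))
  · intro B hB
    have h := mem_powerset.1 hB
    exact erase_insert (fun h2 => (mem_erase.1 (h h2)).1 rfl)
  · intro B hB
    exact insert_erase (mem_filter.1 hB).2
  · intro B _
    rfl

/-- sum over sets not containing a given element -/
theorem sum_powerset_erase {V : Finset α} {z : α} (g : Finset α → ℝ) :
    ∑ B ∈ (V.erase z).powerset, g B = ∑ B ∈ V.powerset, if z ∉ B then g B else 0 := by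
  rw [← sum_filter]
  refine sum_congr ?_ fun _ _ => rfl
  ext B
  simp only [mem_powerset, mem_filter, subset_erase]

/-- **`(r+1) P = sum of the family of level r + 1`** -/
theorem P_eq (w : α → ℝ) (γ : ℕ → ℝ) (r : ℕ) (V A : Finset α) :
    ((r : ℝ) + 1) * Phi w V (fA (fr γ r)) A = ∑ z ∈ V \ A, Kf w γ (r + 1) V z A := by
  have h1 : ∀ z ∈ V \ A, Kf w γ (r + 1) V z A = ∑ B ∈ V.powerset, if z ∈ B then
      (if A.card + 1 = B.card then γ (A.card + (r + 1)) * rho (r + 1) ((B \ A).card - 1) * (wt w A * wt w B) else 0) else 0 := by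
    intro z hz
    obtain ⟨hzV, hzA⟩ := mem_sdiff.1 hz
    rw [← sum_powerset_erase_insert hzV, Kf, Phi, mul_sum]
    refine sum_congr rfl fun B hB => ?_
    have hzB : z ∉ B := fun h => (mem_erase.1 (mem_powerset.1 hB h)).1 rfl
    rw [card_insert_of_notMem hzB, insert_sdiff_of_notMem _ hzA,
      card_insert_of_notMem (fun h => hzB (mem_sdiff.1 h).1), wt_insert w hzB, Nat.add_sub_cancel]
    simp only [fr, Nat.add_right_cancel_iff]
    split_ifs <;> ring
  rw [sum_congr rfl h1, sum_comm, Phi, mul_sum]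
  refine sum_congr rfl fun B hB => ?_
  rw [← sum_filter]
  have h2 : (V \ A).filter (fun z => z ∈ B) = B \ A := by
    ext z
    simp only [mem_filter, mem_sdiff]
    constructor
    · rintro ⟨⟨_, h2⟩, h3⟩; exact ⟨h3, h2⟩
    · rintro ⟨h1, h2⟩; exact ⟨⟨mem_powerset.1 hB h1, h2⟩, h1⟩
  rw [h2, sum_const, nsmul_eq_mul]
  simp only [fA, fr]
  by_cases h : A.card + 1 = B.card
  · rw [if_pos h, if_pos h]
    have hpos : 1 ≤ (B \ A).card := by
      have := le_card_sdiff A B
      omega
    obtain ⟨b, hb⟩ : ∃ b, (B \ A).card = b + 1 := ⟨(B \ A).card - 1, by omega⟩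
    rw [hb, Nat.add_sub_cancel, show A.card + 1 + r = A.card + (r + 1) by ring]
    have := rho_mul r b
    push_cast
    linear_combination (-(γ (A.card + (r + 1)) * (wt w A * wt w B))) * this
  · rw [if_neg h, if_neg h]; ring

/-- **`(r+1) Q = sum of `eps_z K_z` over the family of level r + 1`** -/
theorem Q_eq (w : α → ℝ) (γ : ℕ → ℝ) (r : ℕ) (V A : Finset α) :
    ((r : ℝ) + 1) * Phi w V (fB (fr γ r)) A = ∑ z ∈ A, Kf w γ (r + 1) V z (A.erase z) := by
  have h1 : ∀ z ∈ A, Kf w γ (r + 1) V z (A.erase z) = ∑ B ∈ V.powerset, if z ∉ B then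
      (if A.card = B.card + 1 then γ (A.card + r) * rho (r + 1) ((B \ A).card) * (wt w A * wt w B) else 0) else 0 := by
    intro z hz
    rw [← sum_powerset_erase, Kf, Phi, mul_sum]
    refine sum_congr rfl fun B hB => ?_
    have hzB : z ∉ B := fun h => (mem_erase.1 (mem_powerset.1 hB h)).1 rfl
    have h2 : B \ A.erase z = B \ A := by
      ext y
      simp only [mem_sdiff, mem_erase]
      constructor
      · rintro ⟨h1, h2⟩
        exact ⟨h1, fun h => h2 ⟨fun h3 => hzB (h3 ▸ h1), h⟩⟩
      · rintro ⟨h1, h2⟩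
        exact ⟨h1, fun h => h2 h.2⟩
    have h3 : wt w A = w z * wt w (A.erase z) := by
      conv_lhs => rw [← insert_erase hz]
      exact wt_insert w (notMem_erase _ _)
    have h4 : (A.erase z).card + 1 = A.card := by
      rw [card_erase_of_mem hz]; have := card_pos.2 ⟨z, hz⟩; omega
    rw [h2, h3, ← h4]
    simp only [fr, Nat.add_right_cancel_iff]
    rw [show (A.erase z).card + 1 + r = (A.erase z).card + (r + 1) by ring]
    split_ifs <;> ring
  rw [sum_congr rfl h1, sum_comm, Phi, mul_sum]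
  refine sum_congr rfl fun B _ => ?_
  rw [← sum_filter]
  have h2 : A.filter (fun z => z ∉ B) = A \ B := by
    ext z
    simp only [mem_filter, mem_sdiff]
  rw [h2, sum_const, nsmul_eq_mul]
  simp only [fB, fr]
  by_cases h : A.card = B.card + 1
  · rw [if_pos h, if_pos h]
    have hc : (A \ B).card = (B \ A).card + 1 := by
      have h5 := card_sdiff_add_card_inter A B
      have h6 := card_sdiff_add_card_inter B A
      rw [inter_comm] at h6
      omega
    rw [hc]
    have := rho_mul r (B \ A).card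
    push_cast
    linear_combination (-(γ (A.card + r) * (wt w A * wt w B))) * this
  · rw [if_neg h, if_neg h]; ring

end RL1
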